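import Pool.Agent.Lib.MP_41050a_ag.CI.Lin
import Pool.Agent.Lib.MP_41050a_ag.DJ.Brg2

/-! Smooth complete intersections: smoothness, dimension, anticanonical degree, necks. -/

namespace Pool.Agent.Lib.MP_41050a_ag.CI

open Polynomial NK

set_option linter.unusedSectionVars false

noncomputable section

variable {k : Type} [Field k] [IsAlgClosed k] [CharZero k] {N n c e : ℕ} {f : Fin c → Pk k N}
  {d : Fin c → ℕ}

theorem c_on {R : Type} [CommRing R] [Algebra k R] {x : V R N} :
    On (Ideal.span (Set.range f)) x ↔ ∀ i, MvPolynomial.aeval x (f i) = 0 := by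
  refine ⟨fun h i => h _ (Ideal.subset_span ⟨i, rfl⟩), fun h Φ hΦ => ?_⟩
  obtain ⟨g, rfl⟩ := Ideal.mem_span_range_iff_exists_fun.1 hΦ
  simp [h]

theorem c_tg {R : Type} [CommRing R] [Algebra k R] {x v : V R N}
    (h0 : On (Ideal.span (Set.range f)) x) : Tg (Ideal.span (Set.range f)) x v ↔
      ∀ i, ∑ a, MvPolynomial.aeval x (MvPolynomial.pderiv a (f i)) * v a = 0 := by
  refine ⟨fun h i => h _ (Ideal.subset_span ⟨i, rfl⟩), fun h Φ hΦ => ?_⟩
  obtain ⟨g, rfl⟩ := Ideal.mem_span_range_iff_exists_fun.1 hΦ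
  simp only [map_sum, Derivation.leibniz, smul_eq_mul, map_add, map_mul, c_on.1 h0, zero_mul,
    add_zero, Finset.sum_mul, mul_assoc]
  rw [Finset.sum_comm]
  exact Finset.sum_eq_zero fun i _ => by rw [← Finset.mul_sum, h, mul_zero]

theorem c_cert (ns : NSc f) (j : Fin (N + 1)) : ∃ m, Sp
    (Ideal.Quotient.mk (Ideal.span (Set.range f)) (MvPolynomial.X j) ^ m)
    (ex fun i a => Ideal.Quotient.mk (Ideal.span (Set.range f)) (MvPolynomial.pderiv a (f i))) c := by
  let 𝔞 : Ideal (Pk k N ⧸ Ideal.span (Set.range f)) :=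
    { carrier := {Δ | Sp Δ (ex fun i a =>
        Ideal.Quotient.mk (Ideal.span (Set.range f)) (MvPolynomial.pderiv a (f i))) c}
      zero_mem' := ⟨0, fun i _ j _ => by simp⟩
      add_mem' := fun ⟨u, hu⟩ ⟨u', hu'⟩ => ⟨u + u', fun i hi j hj => by
        rw [Pi.add_apply, add_dotProduct, hu i hi j hj, hu' i hi j hj]
        split_ifs <;> simp⟩
      smul_mem' := fun a _ ⟨u, hu⟩ => ⟨a • u, fun i hi j hj => by
        rw [Pi.smul_apply, smul_dotProduct, hu i hi j hj]
        split_ifs <;> simp⟩ }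
  have h : MvPolynomial.X j ∈ (𝔞.comap (Ideal.Quotient.mk _)).radical := by
    rw [← MvPolynomial.vanishingIdeal_zeroLocus_eq_radical (K := k)]
    intro x hx
    have h1 : On (Ideal.span (Set.range f)) x := fun Φ hΦ => hx Φ (by
      rw [Ideal.mem_comap, Ideal.Quotient.eq_zero_iff_mem.2 hΦ]
      exact 𝔞.zero_mem)
    by_contra h0
    obtain ⟨Δ, h2, h3⟩ := sp_of (p := fun i a =>
      Ideal.Quotient.mk (Ideal.span (Set.range f)) (MvPolynomial.pderiv a (f i)))
      (Ideal.Quotient.liftₐ _ (MvPolynomial.aeval x) fun a => h1 a).toRingHom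
      (fun a => ⟨algebraMap k _ a, AlgHom.commutes _ a⟩)
      (ns k x (fun e => h0 (by simp [e])) (c_on.1 h1))
    obtain ⟨Δ, rfl⟩ := Ideal.Quotient.mk_surjective Δ
    exact one_ne_zero (h2.symm.trans (hx Δ h3))
  exact h

theorem taylor {B : Type} [CommRing B] [Algebra k B] {J : Ideal B} (hJ : J ^ 2 = ⊥) (z : V B N)
    {w : V B N} (hw : ∀ a, w a ∈ J) (Φ : Pk k N) : MvPolynomial.aeval (z + w) Φ =
      MvPolynomial.aeval z Φ + ∑ a, MvPolynomial.aeval z (MvPolynomial.pderiv a Φ) * w a := by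
  induction Φ using MvPolynomial.induction_on with
  | C c => simp
  | add p q hp hq =>
    simp only [map_add, hp, hq, add_mul, Finset.sum_add_distrib]
    ring
  | mul_X p j hp =>
    have h1 : (∑ a, MvPolynomial.aeval z (MvPolynomial.pderiv a p) * w a) * w j = 0 := by
      rw [← Ideal.mem_bot, ← hJ, sq]
      exact Ideal.mul_mem_mul (J.sum_mem fun a _ => J.mul_mem_left _ (hw a)) (hw j)
    simp only [map_mul, hp, MvPolynomial.aeval_X, Pi.add_apply, MvPolynomial.pderiv_mul, map_add,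
      add_mul, Finset.sum_add_distrib, MvPolynomial.pderiv_X, Pi.single_apply, mul_ite, ite_mul,
      apply_ite (MvPolynomial.aeval z), map_zero, mul_one, mul_zero, zero_mul,
      Finset.sum_ite_eq, Finset.mem_univ, if_true, mul_right_comm _ (z j), ← Finset.sum_mul]
    linear_combination h1

/-- One Newton step. -/
theorem c_smooth (ns : NSc f) (i : Fin (N + 1)) : Algebra.Smooth k
    (Localization.Away (Ideal.Quotient.mk (Ideal.span (Set.range f)) (MvPolynomial.X i))) := by
  set I := Ideal.span (Set.range f)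
  have fp : Algebra.FinitePresentation k (Pk k N ⧸ I) :=
    Algebra.FinitePresentation.quotient (Submodule.fg_span (Set.finite_range f))
  refine ⟨Algebra.FormallySmooth.of_comp_surjective fun B _ _ J hJ φ => ?_, inferInstance⟩
  let χ := φ.comp (IsScalarTower.toAlgHom k (Pk k N ⧸ I) _)
  let θ : Pk k N →ₐ[k] B ⧸ J := χ.comp (Ideal.Quotient.mkₐ k I)
  have hθ : ∀ z : V B N, (∀ a, Ideal.Quotient.mk J (z a) = θ (MvPolynomial.X a)) →
      (Ideal.Quotient.mkₐ k J).comp (MvPolynomial.aeval z) = θ := fun z hz =>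
    MvPolynomial.algHom_ext fun a => by simpa using hz a
  have hu : IsUnit (θ (MvPolynomial.X i)) :=
    (IsLocalization.Away.algebraMap_isUnit (Ideal.Quotient.mk I (MvPolynomial.X i))).map φ
  choose z hz using fun a => Ideal.Quotient.mk_surjective (θ (MvPolynomial.X a))
  have hfc : ∀ l, MvPolynomial.aeval z (f l) ∈ J := fun l =>
    Ideal.Quotient.eq_zero_iff_mem.1 ((AlgHom.congr_fun (hθ z hz) (f l)).trans
      ((congrArg χ (Ideal.Quotient.eq_zero_iff_mem.2 (Ideal.subset_span ⟨l, rfl⟩))).trans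
        (map_zero χ)))
  obtain ⟨m, hm⟩ := c_cert ns i
  obtain ⟨u, hA⟩ := hm.map χ.toRingHom
  obtain ⟨r, hr⟩ := (hu.pow m).exists_left_inv
  choose w hw using fun (l : Fin c) a => Ideal.Quotient.mk_surjective (-(r * u l a))
  have h2 : ∀ l l', ∑ a, MvPolynomial.aeval z (MvPolynomial.pderiv a (f l')) * w l a +
      (if l = l' then 1 else 0) ∈ J := fun l l' => by
    have h1 := congrArg (r * ·) (hA l l.2 l' l'.2)
    simp only [ex_lt _ l'.2, Fin.ext_iff.symm, map_pow, mul_ite, mul_zero] at h1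
    rw [← Ideal.Quotient.eq_zero_iff_mem, map_add, map_sum, apply_ite (Ideal.Quotient.mk J), map_one,
      map_zero, ← hr]
    refine (congrArg (_ + ·) h1.symm).trans ?_
    rw [dotProduct, Finset.mul_sum, ← Finset.sum_add_distrib]
    refine Finset.sum_eq_zero fun a _ => ?_
    rw [map_mul, hw, ← mul_assoc, mul_comm (r * u l a), mul_neg, neg_add_eq_zero]
    exact congrArg (· * _) (AlgHom.congr_fun (hθ z hz) _)
  let δ : V B N := fun a => ∑ l, MvPolynomial.aeval z (f l) * w l a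
  have hδ : ∀ a, δ a ∈ J := fun a => J.sum_mem fun l _ => J.mul_mem_right _ (hfc l)
  have h4 : On I (z + δ) := c_on.2 fun l' => by
    have h3 : ∑ l, MvPolynomial.aeval z (f l) * (∑ a, MvPolynomial.aeval z
        (MvPolynomial.pderiv a (f l')) * w l a + if l = l' then 1 else 0) = 0 := by
      rw [← Ideal.mem_bot, ← hJ, sq]
      exact Ideal.sum_mem _ fun l _ => Ideal.mul_mem_mul (hfc l) (h2 l l')
    rw [taylor hJ z hδ, ← h3]
    simp only [δ, mul_add, Finset.sum_add_distrib, Finset.mul_sum, mul_ite, mul_one, mul_zero,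
      Finset.sum_ite_eq', Finset.mem_univ, if_true]
    rw [add_comm, Finset.sum_comm]
    simp only [mul_left_comm]
  have h5 : ∀ a, Ideal.Quotient.mk J ((z + δ) a) = θ (MvPolynomial.X a) := fun a => by
    rw [Pi.add_apply, map_add, Ideal.Quotient.eq_zero_iff_mem.2 (hδ a), add_zero, hz]
  let ψ : (Pk k N ⧸ I) →ₐ[k] B := Ideal.Quotient.liftₐ _ (MvPolynomial.aeval (z + δ)) h4
  have hψ : ∀ Φ, ψ (Ideal.Quotient.mk I Φ) = MvPolynomial.aeval (z + δ) Φ := fun Φ => rfl
  have h6 : IsUnit (ψ (Ideal.Quotient.mk I (MvPolynomial.X i))) := by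
    rw [hψ, MvPolynomial.aeval_X]
    exact (IsNilpotent.isUnit_quotient_mk_iff (I := J) ⟨2, hJ⟩).1 (h5 i ▸ hu)
  refine ⟨IsLocalization.Away.liftAlgHom _ h6, AlgHom.coe_ringHom_injective
    (IsLocalization.ringHom_ext (Submonoid.powers (Ideal.Quotient.mk I (MvPolynomial.X i)))
      (Ideal.Quotient.ringHom_ext (RingHom.ext fun Φ => ?_)))⟩
  exact (congrArg (Ideal.Quotient.mk J) ((IsLocalization.Away.lift_eq _ h6 _).trans (hψ Φ))).trans
    (AlgHom.congr_fun (hθ _ h5) Φ)

theorem c_var (hf : ∀ i, (f i).IsHomogeneous (d i)) (hp : (Ideal.span (Set.range f)).IsPrime)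
    (ns : NSc f) : SmoothVar (Ideal.span (Set.range f)) := by
  refine ⟨⟨hp, fun Φ hΦ m => ?_⟩, c_smooth ns⟩
  let := MvPolynomial.gradedAlgebra (σ := Fin (N + 1)) (R := k)
  refine MvPolynomial.homogeneousComponent_mem_of_mem (Ideal.homogeneous_span _ _ ?_) hΦ m
  rintro _ ⟨i, rfl⟩
  exact ⟨d i, hf i⟩

theorem c_dim (ns : NSc f) (hn : n + c = N) : Dim (Ideal.span (Set.range f)) n k := by
  intro x hx h0
  obtain ⟨u, hu⟩ := dual (ns k x hx (c_on.1 h0))
  let L := Matrix.mulVecLin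
    (Matrix.of fun i a => MvPolynomial.aeval x (MvPolynomial.pderiv a (f i)))
  have e : tsp (Ideal.span (Set.range f)) x = LinearMap.ker L := by
    ext v
    rw [mem_tsp, c_tg h0, LinearMap.mem_ker, funext_iff]
    rfl
  have hL : LinearMap.range L = ⊤ := LinearMap.range_eq_top.2 fun v =>
    ⟨∑ i, v i • u i, funext fun j => by
      have : ∀ i, L (u i) j = if i = j then 1 else 0 := fun i => (dotProduct_comm _ _).trans (hu i j)
      simp [this]⟩
  have := L.finrank_range_add_finrank_ker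
  rw [hL, finrank_top, Module.finrank_fin_fun, Module.finrank_fin_fun] at this
  rw [e]
  omega

variable {Λ : Type} [Field Λ] [Algebra k Λ] [IsAlgClosed Λ] {F : V Λ[X] N}

theorem c_antiK (hf : ∀ i, (f i).IsHomogeneous (d i)) (hd : ∀ i, 1 ≤ d i) (ns : NSc f)
    (hn : n + c = N) (hF : IsMap (Ideal.span (Set.range f)) e F) {b : ℤ}
    (h : AntiK (Ideal.span (Set.range f)) n e F b) : b = e * (N + 1 - (∑ i, d i : ℕ)) := by
  obtain ⟨δ, G, hG, rfl⟩ := h
  let p := fun i a => MvPolynomial.aeval F (MvPolynomial.pderiv a (f i))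
  have hv : ∀ {g : Pk k N} {m : ℕ}, g.IsHomogeneous m → ∀ q,
      val (m * e) q (MvPolynomial.aeval F g) = MvPolynomial.aeval (ev e q F) g := fun hg q => by
    cases q with
    | none => exact (coeff_aev hg hF.deg).2
    | some b => exact eval_aev F b _
  have hp : ∀ q, LinearIndependent Λ fun i a => val ((d i - 1) * e) q (p i a) := fun q => by
    simp only [p, hv (hf _).pderiv]
    refine ns Λ _ (chn_ne hF q) fun i => ?_
    rw [← hv (hf i), c_on.1 hF.on]
    cases q <;> simp [val]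
  have d1 := ex_deg hG.deg
  have d2 := ex_deg (τ := p) fun i a => (coeff_aev (hf i).pderiv hF.deg).1
  have h1 : Bp (∑ j, δ j) (CC (ex G) (n + 1) (Pi.single Finset.univ 1)) := by
    have h0 := CC_deg d1.1 (n + 1) Finset.univ
    rw [d1.2.1, d1.2.2] at h0
    refine ⟨fun S => (h0 S).1, fun q => (CC_ind (hG.ind q)).imp fun S hS => ne_of_eq_of_ne ?_ hS⟩
    cases q with
    | none => exact (h0 S).2
    | some b =>
      have := CC_map (evalRingHom b) (ex G) (n + 1) (Pi.single Finset.univ 1)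
      rw [map_ex, map_single] at this
      exact congrFun this S
  have h2 : Bp (∑ i, (d i - 1) * e) (WW (ex p) c (Pi.single ∅ 1)) := by
    have h0 := WW_deg d2.1 c fun S => (single_deg ∅ S).1
    simp only [d2.2.1, d2.2.2, zero_add, (single_deg ∅ _).2] at h0
    refine ⟨fun S => (h0 S).1, fun q => ?_⟩
    obtain ⟨Δ, rfl, a1⟩ := sp_of (RingHom.id Λ) Function.surjective_id (hp q)
    refine (Function.ne_iff.1 fun a2 => ?_ : ∃ S, WW (ex fun i a => val ((d i - 1) * e) q (p i a)) c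
      (Pi.single ∅ 1) S ≠ 0).imp fun S hS => ne_of_eq_of_ne ?_ hS
    · obtain ⟨β, a3, a4⟩ := a1.loc (deg_single ∅) a2
      simpa [fun i => (a3 i).eq_zero (by simp)] using congrFun a4 ∅
    · cases q with
      | none => exact (h0 S).2
      | some b =>
        have := WW_map (evalRingHom b) (ex p) c (Pi.single ∅ 1)
        rw [map_ex, map_single] at this
        exact congrFun this S
  obtain ⟨-, S₀, a1, a2, a3⟩ := prop (by omega) (hp (some 0)) (hG.ind (some 0))
    (fun s l => (dotProduct_comm _ _).trans ((c_tg hF.on).1 (hG.tg s) l)) rfl rfl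
  have h4 := h2.uniq h1 (fun h => a1 (by rw [h, eval_zero])) (fun h => a2 (by rw [h, coeff_zero])) a3
  have h5 : ∑ i, (d i - 1) + c = ∑ i, d i := by
    rw [← Finset.sum_congr rfl fun i _ => Nat.sub_add_cancel (hd i), Finset.sum_add_distrib]
    simp
  rw [← Finset.sum_mul] at h4
  rw [Finset.sum_sub_distrib, ← Nat.cast_sum _ δ, ← h4, ← h5, ← hn]
  simp
  ring

/-- A short chain is a line. -/
theorem c_chain (hf : ∀ i, (f i).IsHomogeneous (d i)) (hd : ∀ i, 1 ≤ d i) (ns : NSc f)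
    (hn : n + c = N) (hι : ∑ i, d i ≤ N) {x y : V Λ N} {ε : ℤ}
    (h : Chain (Ideal.span (Set.range f)) n x y ε) (h0 : 0 < ε)
    (h1 : ε < 2 * (N + 1 - (∑ i, d i : ℕ))) : ε = N + 1 - (∑ i, d i : ℕ) ∧ ∃ p q : V Λ N, p ≠ 0 ∧
      q ≠ 0 ∧ (∀ i, MvPolynomial.aeval (DJ.ln p q) (f i) = 0) ∧ rat x ∪ rat y = rat p ∪ rat q := by
  have low : Low (Ideal.span (Set.range f)) n Λ (N + 1 - (∑ i, d i : ℕ)) := fun e F c hc => by
    rw [c_antiK hf hd ns hn hc.map hc.deg]
    have := hc.pos
    exact le_mul_of_one_le_left (by omega) (by omega)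
  have low1 : Low (Ideal.span (Set.range f)) n Λ 1 := fun e F c hc =>
    le_trans (by omega) (low e F c hc)
  cases h with
  | nil _ => omega
  | @cons _ _ e F b ε hc hp h' =>
    have a1 := low e F b hc
    have a2 := h'.nonneg low1
    have a3 := c_antiK hf hd ns hn hc.map hc.deg
    have a4 : e = 1 := by
      have := hc.pos
      by_contra hne
      have : (2 : ℤ) * (N + 1 - (∑ i, d i : ℕ)) ≤ e * (N + 1 - (∑ i, d i : ℕ)) :=
        mul_le_mul_of_nonneg_right (by omega) (by omega)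
      omega
    subst a4
    cases h' with
    | nil hq =>
      refine ⟨by omega, _, _, chn_ne hc.map (some 0), chn_ne hc.map none, ?_, ?_⟩
      · have e : DJ.ln (ev 1 (some 0) F) (ev 1 none F) = F := funext fun i => by
          rw [eq_X_add_C_of_natDegree_le_one (hc.map.deg i), coeff_zero_eq_eval_zero]
          exact (add_comm _ _).trans (congrArg (· + _) (mul_comm _ _))
        rw [e]
        exact c_on.1 hc.map.on
      · rw [DJ.rat_par hp, ← DJ.rat_par hq, Set.union_comm]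
        rfl
    | cons hc' _ h'' =>
      have b1 := low _ _ _ hc'
      have b2 := h''.nonneg low1
      omega

theorem third (hf : ∀ i, (f i).IsHomogeneous (d i)) (hd : ∀ i, 1 ≤ d i) (ns : NSc f)
    (hp : (Ideal.span (Set.range f)).IsPrime) (h3 : 3 * ∑ i, d i ≤ 2 * N + c + 2)
    (he : N + 2 ≤ e * (N + 1 - ∑ i, d i) + c)
    {P : Ideal (MvPolynomial (Fin (N + 1) × Fin (e + 1)) k)}
    (hP : P ∈ (eqs (Ideal.span (Set.range f)) e).minimalPrimes)
    (hg : GenFree (Ideal.span (Set.range f)) e P) : BreaksN (Ideal.span (Set.range f)) e P := by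
  have hc : c ≤ ∑ i, d i := by simpa using Finset.sum_le_sum (s := Finset.univ) fun i _ => hd i
  have hι : ∑ i, d i ≤ N := by
    by_contra h
    rw [show N + 1 - ∑ i, d i = 0 by omega] at he
    omega
  obtain ⟨n, hn⟩ : ∃ n, n + c = N := ⟨N - c, by omega⟩
  have low : ∀ (e : ℕ) (F : V k[X] N) (b : ℤ), Curve (Ideal.span (Set.range f)) n e F b →
      (N + 1 - (∑ i, d i : ℕ) : ℤ) ≤ b := fun e F b hc => by
    rw [c_antiK hf hd ns hn hc.map hc.deg]
    have := hc.pos
    exact le_mul_of_one_le_left (by omega) (by omega)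
  have gk : GenK (Ideal.span (Set.range f)) n e P (n + 2) := by
    obtain ⟨h, hh, h1⟩ := hg
    refine ⟨h, hh, fun a ha hb => ⟨(h1 a ha hb).1, (h1 a ha hb).2, ?_⟩⟩
    obtain ⟨δ, G, hG⟩ := exists_frame (c_dim ns hn) (h1 a ha hb).1
    refine ⟨_, ?_, δ, G, hG, rfl⟩
    rw [c_antiK hf hd ns hn (h1 a ha hb).1 ⟨δ, G, hG, rfl⟩]
    have h4 := Int.ofNat_le.2 he
    have hι' : ∑ i, d i ≤ N + 1 := by omega
    rw [Nat.cast_add, Nat.cast_add, Nat.cast_mul, Nat.cast_sub hι', Nat.cast_add N, Nat.cast_one] at h4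
    omega
  rcases NK.main (c_var hf hp ns) (c_dim ns hn) (by omega) low hP gk with
    h | ⟨ε, e', F, b, a1, a2, ⟨Λ, _, _, _, x, y, a3, a4⟩, a5, -⟩
  · exact h
  have a6 := low _ _ _ a5
  obtain ⟨b1, p, q, hp, hq, b2, b3⟩ := c_chain hf hd ns hn hι a3 (by omega) (by omega)
  have := neck_le hf hd ns (by omega) le_rfl hp hq b2 (c := n + ε) (b3 ▸ a4)
  omega

end

end Pool.Agent.Lib.MP_41050a_ag.CI
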