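import Pool.Agent.Lib.MP_41050a_ag.CI.Sai

/-! Colon capturing in a finite extension of a polynomial ring. -/

namespace Pool.Agent.Lib.MP_41050a_ag.CI

open MvPolynomial

theorem exists_cap {P R : Type} [CommRing P] [IsDomain P] [CommRing R] [IsDomain R] [Algebra P R]
    [Module.Finite P R] (hinj : Function.Injective (algebraMap P R)) : ∃ c : P, c ≠ 0 ∧
      ∀ (J : Ideal P) (a : P), (∀ y, a * y ∈ J → y ∈ J) → ∀ x : R,
        algebraMap P R a * x ∈ J.map (algebraMap P R) →
          algebraMap P R c * x ∈ J.map (algebraMap P R) := by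
  classical
  have : FaithfulSMul P R := (faithfulSMul_iff_algebraMap_injective _ _).2 hinj
  obtain ⟨m, v, hv⟩ := Module.Finite.exists_fin (R := P) (M := R)
  obtain ⟨s, h1, h2⟩ := exists_maximal_linearIndepOn P v
  have h3 : ∀ i, ∃ a : P, a ≠ 0 ∧ a • v i ∈ Submodule.span P (v '' s) := fun i => by
    by_cases hi : i ∈ s
    · exact ⟨1, one_ne_zero, by rw [one_smul]; exact Submodule.subset_span ⟨i, hi, rfl⟩⟩
    · exact h2 i hi
  choose a h4 h5 using h3
  have h6 : ∀ x : R, (∏ i, a i) • x ∈ Submodule.span P (Set.range fun i : s => v i) := fun x => by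
    rw [← Set.image_eq_range]
    have hx : x ∈ Submodule.span P (Set.range v) := hv ▸ Submodule.mem_top
    induction hx using Submodule.span_induction with
    | mem x hx =>
      obtain ⟨i, rfl⟩ := hx
      rw [← Finset.prod_erase_mul _ _ (Finset.mem_univ i), mul_smul]
      exact Submodule.smul_mem _ _ (h5 i)
    | zero => simp
    | add x y _ _ hx hy => rw [smul_add]; exact add_mem hx hy
    | smul b x _ hx => rw [smul_comm]; exact Submodule.smul_mem _ _ hx
  let b := Module.Basis.span h1
  let l : R →ₗ[P] Submodule.span P (Set.range fun i : s => v i) :=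
    LinearMap.codRestrict _ ((∏ i, a i) • LinearMap.id) h6
  refine ⟨∏ i, a i, Finset.prod_ne_zero_iff.2 fun i _ => h4 i, fun J r hr x hx => ?_⟩
  have h7 : ∀ i, ∀ y ∈ J.map (algebraMap P R), b.repr (l y) i ∈ J := fun i y hy => by
    have h8 : y ∈ J • (⊤ : Submodule P R) := by
      rw [Ideal.smul_top_eq_map]
      exact hy
    refine Submodule.smul_induction_on h8 (fun r hr y _ => ?_) fun y y' h h' => ?_
    · rw [map_smul, map_smul]
      exact J.mul_mem_right _ hr
    · rw [map_add, map_add]
      exact J.add_mem h h'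
  have h9 := congrArg Subtype.val (b.sum_repr (l x))
  rw [AddSubmonoidClass.coe_finsetSum] at h9
  rw [← Algebra.smul_def, show (∏ i, a i) • x = (l x).val from rfl, ← h9]
  refine Ideal.sum_mem _ fun i _ => ?_
  rw [Submodule.coe_smul, Algebra.smul_def]
  refine Ideal.mul_mem_right _ _ (Ideal.mem_map_of_mem _ (hr _ ?_))
  have := h7 i _ hx
  rwa [← Algebra.smul_def, map_smul, map_smul] at this

theorem mono_reg {κ : Type} [Field κ] {s : ℕ} {E : Set (Fin s →₀ ℕ)} {i : Fin s}
    (hE : ∀ e ∈ E, e i = 0) (t : ℕ) (y : MvPolynomial (Fin s) κ)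
    (h : X i ^ t * y ∈ Ideal.span ((fun e => monomial e (1 : κ)) '' E)) :
    y ∈ Ideal.span ((fun e => monomial e (1 : κ)) '' E) := by
  rw [mem_ideal_span_monomial_image] at h ⊢
  intro x hx
  obtain ⟨e, h1, h2⟩ := h (Finsupp.single i t + x) (by
    rwa [X_pow_eq_monomial, mem_support_iff, coeff_monomial_mul, one_mul, ← mem_support_iff])
  refine ⟨e, h1, fun j => ?_⟩
  by_cases hj : j = i
  · rw [hj, hE e h1]
    exact Nat.zero_le _
  · simpa [hj] using h2 j

theorem exists_AR {κ R : Type} [Field κ] [CommRing R] [IsDomain R] {s : ℕ}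
    (f : MvPolynomial (Fin s) κ →+* R) (hinj : Function.Injective f) (hfin : f.Finite) :
    ∃ c : R, c ≠ 0 ∧ ∀ d ≤ s, AR d R c fun j => if h : j < s then f (X ⟨j, h⟩) else 0 := by
  let := f.toAlgebra
  have : Module.Finite (MvPolynomial (Fin s) κ) R := hfin
  obtain ⟨c, h0, hc⟩ := exists_cap (P := MvPolynomial (Fin s) κ) (R := R) hinj
  have key : ∀ (d i : ℕ), i + d ≤ s → ∀ (E : Set (Fin s →₀ ℕ)), (∀ e ∈ E, ∀ j : Fin s,
      i ≤ j.val → e j = 0) → ∀ (R' : Type) [CommRing R'] (π : R →+* R'), Function.Surjective π →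
      RingHom.ker π = (Ideal.span ((fun e => monomial e (1 : κ)) '' E)).map f → ∀ z : ℕ → R',
      (∀ j (h : i + j < s), z j = π (f (X ⟨i + j, h⟩))) → AR d R' (π (f c)) z := by
    intro d
    induction d with
    | zero => exact fun _ _ _ _ _ _ _ _ _ _ _ => trivial
    | succ d ih =>
      intro i hi E hE R' _ π hπ hk z hz t
      have h1 : z 0 ^ t = π (f (X ⟨i, by omega⟩ ^ t)) := by
        rw [hz 0 (by omega), map_pow, map_pow]
        rfl
      refine ⟨fun x hx => ?_, ih (i + 1) (by omega) (insert (Finsupp.single ⟨i, by omega⟩ t) E)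
        ?_ _ ((Ideal.Quotient.mk _).comp π) (Ideal.Quotient.mk_surjective.comp hπ) ?_ _
        fun j h => ?_⟩
      · obtain ⟨x, rfl⟩ := hπ x
        rw [h1, ← map_mul, ← RingHom.mem_ker, hk] at hx
        rw [← map_mul, ← RingHom.mem_ker, hk]
        exact hc _ _ (mono_reg (fun e he => hE e he _ le_rfl) t) x hx
      · rintro e (rfl | he) j hj
        · exact Finsupp.single_eq_of_ne (fun e => by rw [e] at hj; simp at hj)
        · exact hE e he j (by omega)
      · rw [← RingHom.comap_ker, Ideal.mk_ker, h1, ← Set.image_singleton, ← Ideal.map_span,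
          Ideal.comap_map_of_surjective _ hπ, ← RingHom.ker_eq_comap_bot, hk, Set.image_insert_eq,
          Ideal.span_insert, Ideal.map_sup, Ideal.map_span _ {_}, Set.image_singleton,
          X_pow_eq_monomial]
      · rw [RingHom.comp_apply, hz (j + 1) (by omega)]
        simp only [add_assoc, add_comm 1 j]
  refine ⟨f c, (map_ne_zero_iff f hinj).2 h0, fun d hd => key d 0 (by omega) ∅ (by simp) R
    (RingHom.id R) Function.surjective_id (by simp [RingHom.ker_eq_comap_bot]) _ fun j h => ?_⟩
  simp only [zero_add] at h ⊢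
  rw [dif_pos h, RingHom.id_apply]

end Pool.Agent.Lib.MP_41050a_ag.CI
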