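import Pool.Agent.Lib.MP_41050a_ag.CI.Fock
import Pool.Agent.Lib.MP_41050a_ag.DJ.C

/-! The Pluecker vector of the tangent spaces along a line. -/

namespace Pool.Agent.Lib.MP_41050a_ag.CI

open Polynomial

noncomputable section

variable {n : ℕ} {R R' : Type} [CommRing R] [CommRing R']

/-- The product `Cn (u (k - 1)) ∘ ⋯ ∘ Cn (u 0)`. -/
def CC (u : ℕ → Fin n → R) : ℕ → Fk n R → Fk n R
  | 0 => id
  | k + 1 => Cn (u k) ∘ CC u k

/-- Extension by zero. -/
def ex {M : Type} [Zero M] {m : ℕ} (g : Fin m → M) (i : ℕ) : M := if h : i < m then g ⟨i, h⟩ else 0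

theorem ex_lt {M : Type} [Zero M] {m : ℕ} (g : Fin m → M) {i : ℕ} (h : i < m) :
    ex g i = g ⟨i, h⟩ := dif_pos h

theorem map_ex (φ : R →+* R') {m : ℕ} (g : Fin m → Fin n → R) :
    (fun i => φ ∘ ex g i) = ex fun l => φ ∘ g l := by
  funext i a
  unfold ex
  split_ifs <;> simp

theorem map_single (φ : R →+* R') (S : Finset (Fin n)) :
    φ ∘ (Pi.single S 1 : Fk n R) = Pi.single S 1 := by
  funext T
  simp [Pi.single_apply, apply_ite φ]

theorem deg_single (S : Finset (Fin n)) : Deg S.card (Pi.single S 1 : Fk n R) := fun _ h =>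
  Pi.single_eq_of_ne (fun e => h (by rw [e])) _

theorem CC_map (φ : R →+* R') (u : ℕ → Fin n → R) (k : ℕ) (η : Fk n R) :
    φ ∘ CC u k η = CC (fun i => φ ∘ u i) k (φ ∘ η) := by
  induction k with
  | zero => rfl
  | succ k ih => exact (Cn_map φ _ _).trans (congrArg _ ih)

theorem Deg.CC {p : ℤ} {η : Fk n R} (h : Deg p η) (u : ℕ → Fin n → R) (k : ℕ) :
    Deg (p - k) (CC u k η) := by
  induction k with
  | zero => exact fun S e => h S (by simpa using e)
  | succ k ih =>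
    have := ih.Cn (u k)
    rwa [show p - k - 1 = p - (k + 1 : ℕ) by push_cast; ring] at this

theorem W_CC {ω : Fin n → R} {u : ℕ → Fin n → R} {k : ℕ} (h : ∀ i < k, u i ⬝ᵥ ω = 0) {η : Fk n R}
    (h0 : W ω η = 0) : W ω (CC u k η) = 0 := by
  induction k with
  | zero => exact h0
  | succ k ih =>
    refine (W_Cn _ _ _).trans ?_
    rw [h k (by omega), ih fun i hi => h i (by omega), map_zero, zero_smul, sub_zero]

theorem W_top (ω : Fin n → R) : W ω (Pi.single Finset.univ 1) = 0 := funext fun S =>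
  (deg_single Finset.univ).W ω S (by
    have := Finset.card_le_univ S
    rw [Finset.card_univ]
    omega)

theorem CC_ne {u q : ℕ → Fin n → R} {k : ℕ}
    (h : ∀ i < k, ∀ j < k, u i ⬝ᵥ q j = if i = j then 1 else 0) {η : Fk n R}
    (hq : ∀ j, W (q j) η = 0) (h0 : CC u k η = 0) : η = 0 := by
  induction k with
  | zero => exact h0
  | succ k ih =>
    refine ih (fun i hi j hj => h i (by omega) j (by omega)) ?_
    have h1 := W_Cn (u k) (q k) (CC u k η)
    rwa [W_CC (fun i hi => (h i (by omega) k (by omega)).trans (if_neg hi.ne)) (hq k), map_zero,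
      show Cn (u k) (CC u k η) = 0 from h0, map_zero, h k (by omega) k (by omega), if_pos rfl,
      one_smul, sub_zero, eq_comm] at h1

theorem term_deg {u η : R[X]} {δ j : ℕ} (hu : u.natDegree ≤ δ) (hη : η.natDegree ≤ j) (a : Fin n)
    (S : Finset (Fin n)) : (u * sg R[X] a S * η).natDegree ≤ j + δ ∧
      (u * sg R[X] a S * η).coeff (j + δ) = u.coeff δ * sg R a S * η.coeff j := by
  have h := (natDegree_mul_C_le u (sg R a S)).trans hu
  rw [← map_sg C, add_comm, coeff_mul_add_eq_of_natDegree_le h hη, coeff_mul_C]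
  exact ⟨natDegree_mul_le.trans (add_le_add h hη), rfl⟩

theorem single_deg (T S : Finset (Fin n)) : ((Pi.single T 1 : Fk n R[X]) S).natDegree ≤ 0 ∧
    ((Pi.single T 1 : Fk n R[X]) S).coeff 0 = (Pi.single T 1 : Fk n R) S := by
  simp only [Pi.single_apply]
  split_ifs <;> simp

theorem CC_deg {u : ℕ → Fin n → R[X]} {δ : ℕ → ℕ} (h : ∀ i a, (u i a).natDegree ≤ δ i) (k : ℕ)
    (T S : Finset (Fin n)) :
    (CC u k (Pi.single T 1) S).natDegree ≤ ∑ i ∈ Finset.range k, δ i ∧
      (CC u k (Pi.single T 1) S).coeff (∑ i ∈ Finset.range k, δ i) =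
        CC (fun i a => (u i a).coeff (δ i)) k (Pi.single T 1) S := by
  induction k generalizing S with
  | zero => exact single_deg T S
  | succ k ih =>
    rw [Finset.sum_range_succ]
    exact ⟨natDegree_sum_le_of_forall_le _ _ fun a _ => (term_deg (h k a) (ih _).1 a S).1,
      (finsetSum_coeff _ _ _).trans (Finset.sum_congr rfl fun a _ =>
        (term_deg (h k a) (ih _).1 a S).2.trans (congrArg _ (ih _).2))⟩

theorem WW_deg {u : ℕ → Fin n → R[X]} {δ : ℕ → ℕ} (h : ∀ i a, (u i a).natDegree ≤ δ i) (k : ℕ)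
    {η : Fk n R[X]} {j : ℕ} (hη : ∀ S, (η S).natDegree ≤ j) (S : Finset (Fin n)) :
    (WW u k η S).natDegree ≤ j + ∑ i ∈ Finset.range k, δ i ∧
      (WW u k η S).coeff (j + ∑ i ∈ Finset.range k, δ i) =
        WW (fun i a => (u i a).coeff (δ i)) k (fun S => (η S).coeff j) S := by
  induction k generalizing η j with
  | zero => exact ⟨hη S, rfl⟩
  | succ k ih =>
    have := ih (η := W (u k) η) (j := j + δ k) fun S =>
      natDegree_sum_le_of_forall_le _ _ fun a _ => (term_deg (h k a) (hη _) a S).1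
    rw [Finset.sum_range_succ, add_comm _ (δ k), ← add_assoc]
    exact ⟨this.1, this.2.trans (congrArg (WW _ k · S) (funext fun S =>
      (finsetSum_coeff _ _ _).trans (Finset.sum_congr rfl fun a _ =>
        (term_deg (h k a) (hη _) a S).2)))⟩

theorem ex_deg {m : ℕ} {τ : Fin m → Fin n → R[X]} {δ : Fin m → ℕ}
    (h : ∀ s a, (τ s a).natDegree ≤ δ s) : (∀ i a, (ex τ i a).natDegree ≤ ex δ i) ∧
      ∑ i ∈ Finset.range m, ex δ i = ∑ s, δ s ∧
      (fun i a => (ex τ i a).coeff (ex δ i)) = ex fun s a => (τ s a).coeff (δ s) := by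
  refine ⟨fun i a => ?_, ?_, funext fun i => funext fun a => ?_⟩
  · unfold ex
    split_ifs
    · exact h _ _
    · simp
  · simp only [Finset.sum_range, ex_lt δ (Fin.is_lt _), Fin.eta]
  · unfold ex
    split_ifs <;> simp

variable {K : Type} [Field K]

theorem dual {m : ℕ} {g : Fin m → Fin n → K} (h : LinearIndependent K g) :
    ∃ u : Fin m → Fin n → K, ∀ i j, u i ⬝ᵥ g j = if i = j then 1 else 0 := by
  obtain ⟨L, hL⟩ := (Fintype.linearCombination K g).exists_leftInverse_of_injective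
    (LinearMap.ker_eq_bot.2 h.fintypeLinearCombination_injective)
  refine ⟨fun i a => L (Pi.single a 1) i, fun i j => ?_⟩
  have h1 := congrFun (LinearMap.congr_fun hL (Pi.single j 1)) i
  rw [LinearMap.comp_apply, Fintype.linearCombination_apply_single, one_smul,
    LinearMap.id_apply, Pi.single_apply, pi_eq_sum_univ' (g j), map_sum] at h1
  rw [← h1]
  simp [dotProduct, mul_comm]

theorem sp_of {ρ : ℕ} {p : Fin ρ → Fin n → R} (φ : R →+* K) (hφ : Function.Surjective φ)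
    (hp : LinearIndependent K fun l => φ ∘ p l) : ∃ Δ : R, φ Δ = 1 ∧ Sp Δ (ex p) ρ := by
  obtain ⟨u, hu⟩ := dual hp
  choose σ hσ using hφ
  let M : Matrix (Fin ρ) (Fin ρ) R := Matrix.of fun i j => (σ ∘ u i) ⬝ᵥ p j
  refine ⟨M.det, ?_, ex fun i => ∑ l, M.adjugate i l • σ ∘ u l, fun i hi j hj => ?_⟩
  · refine (φ.map_det M).trans ((congrArg _ ?_).trans Matrix.det_one)
    ext i j
    rw [Matrix.one_apply, ← hu]
    simp [M, dotProduct, hσ]
  · have h1 := congrFun (congrFun M.adjugate_mul ⟨i, hi⟩) ⟨j, hj⟩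
    rw [ex_lt _ hi, ex_lt _ hj, sum_dotProduct]
    simpa [Matrix.mul_apply, Matrix.one_apply, M] using h1

theorem CC_ind {m : ℕ} {τ : Fin m → Fin n → K} (hτ : LinearIndependent K τ) :
    ∃ S, CC (ex τ) m (Pi.single Finset.univ 1) S ≠ 0 := by
  obtain ⟨q, hq⟩ := dual hτ
  refine Function.ne_iff.1 fun h0 => ?_
  simpa using congrFun (CC_ne (q := ex q) (fun i hi j hj => by
    rw [ex_lt _ hi, ex_lt _ hj, dotProduct_comm, hq]
    simp [eq_comm]) (fun _ => W_top _) h0) Finset.univ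

/-- The two Pluecker vectors are proportional. -/
theorem prop {ρ m : ℕ} (hc : m + ρ = n) {p : Fin ρ → Fin n → K[X]} {τ : Fin m → Fin n → K[X]}
    (hp : LinearIndependent K fun l => evalRingHom 0 ∘ p l)
    (hτ : LinearIndependent K fun s => evalRingHom 0 ∘ τ s) (h : ∀ s l, τ s ⬝ᵥ p l = 0)
    {U T : Fk n K[X]} (hU : U = WW (ex p) ρ (Pi.single ∅ 1))
    (hT : T = CC (ex τ) m (Pi.single Finset.univ 1)) : Deg (0 + ρ) T ∧ ∃ S₀, (T S₀).eval 0 ≠ 0 ∧
      (U S₀).coeff 0 ≠ 0 ∧ ∀ S, U S₀ * T S = T S₀ * U S := by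
  have dT : Deg (0 + ρ) T := by
    have := (deg_single (R := K[X]) (n := n) Finset.univ).CC (ex τ) m
    rwa [Finset.card_univ, Fintype.card_fin, show (n : ℤ) - m = 0 + ρ by omega, ← hT] at this
  obtain ⟨S₀, hS⟩ := CC_ind hτ
  rw [← map_ex, ← map_single (evalRingHom (0 : K)), ← CC_map, ← hT] at hS
  obtain ⟨Δ, h1, h2⟩ := sp_of _ (fun a => ⟨C a, eval_C⟩) hp
  obtain ⟨η, h3, h4⟩ := h2.div (G := T) (fun i hi => hT ▸
    W_CC (fun j hj => by rw [ex_lt _ hi, ex_lt _ hj, h]) (W_top _)) dT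
  have h5 : ∀ S, Δ ^ ρ * T S = η ∅ * U S := fun S => by
    rw [show η = η ∅ • Pi.single ∅ 1 from funext fun S => by
      by_cases e : S = ∅
      · simp [e]
      · simp [e, h3 S (by simpa using e)], map_smul, ← hU] at h4
    exact congrFun h4 S
  refine ⟨dT, S₀, hS, fun e => hS ?_, fun S => mul_left_cancel₀ (pow_ne_zero ρ fun e : Δ = 0 => by
    simp [e] at h1) (by linear_combination U S₀ * h5 S - U S * h5 S₀)⟩
  have := congrArg (evalRingHom 0) (h5 S₀)
  rw [coeff_zero_eq_eval_zero] at e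
  rw [map_mul, map_pow, h1] at this
  simpa [e] using this

/-- The primitive Pluecker vector. -/
theorem plk {ρ m : ℕ} (hc : m + ρ = n) (p : Fin ρ → Fin n → K[X]) (τ : Fin m → Fin n → K[X])
    (δ : Fin m → ℕ) (hδ : ∀ s a, (τ s a).natDegree ≤ δ s)
    (hp : LinearIndependent K fun l => evalRingHom 0 ∘ p l)
    (hτ : LinearIndependent K fun s => evalRingHom 0 ∘ τ s) (h : ∀ s l, τ s ⬝ᵥ p l = 0) :
    ∃ (G : Fk n K[X]) (r : K[X]) (S₀ : Finset (Fin n)), (G S₀).coeff 0 = 1 ∧ r.coeff 0 ≠ 0 ∧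
      (∀ S, G S * r = WW (ex p) ρ (Pi.single ∅ 1) S) ∧ Deg ρ G ∧
      (∀ S, (G S).natDegree ≤ ∑ s, δ s) ∧ ∀ ω, (∀ s, τ s ⬝ᵥ ω = 0) → W ω G = 0 := by
  obtain ⟨dT, S₀, hS, h7, h6⟩ := prop hc hp hτ h rfl rfl
  set U := WW (ex p) ρ (Pi.single ∅ 1)
  set T := CC (ex τ) m (Pi.single Finset.univ 1) with hT
  have kT : ∀ ω, (∀ s, τ s ⬝ᵥ ω = 0) → W ω T = 0 := fun ω hω =>
    W_CC (fun i hi => by rw [ex_lt _ hi, hω]) (W_top ω)
  obtain ⟨g, r, s, a, b, hg, hr, hs, hb⟩ := DJ.bez (q := T S₀) h7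
  have hg0 : g ≠ 0 := fun h => by simp [h] at hg
  have hs0 : s ≠ 0 := fun h => hS (by rw [← hs, h, mul_zero, eval_zero])
  have h8 : s • (a • U + b • T) = T := funext fun S => mul_left_cancel₀ hg0 (by
    simp only [Pi.smul_apply, Pi.add_apply, smul_eq_mul]
    linear_combination (a * U S + b * T S) * hs - T S * hb - a * h6 S)
  refine ⟨a • U + b • T, r, S₀, (congrArg (coeff · 0) hb).symm.trans hg, fun e => h7 (by rw [← hr, mul_coeff_zero, e, mul_zero]),
    fun S => mul_left_cancel₀ hg0 ?_, fun S e => ?_, fun S => ?_, fun ω hω => ?_⟩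
  · simp only [Pi.smul_apply, Pi.add_apply, smul_eq_mul]
    linear_combination (a * U S + b * T S) * hr - U S * hb + b * h6 S
  · exact (mul_eq_zero.1 ((congrFun h8 S).trans (dT S (by simpa using e)))).resolve_left hs0
  · by_cases e : (a • U + b • T) S = 0
    · simp [e]
    have := (CC_deg (ex_deg hδ).1 m Finset.univ S).1
    rw [← hT, ← h8, Pi.smul_apply, smul_eq_mul, natDegree_mul hs0 e, (ex_deg hδ).2.1] at this
    omega
  · have := kT ω hω
    rw [← h8, map_smul] at this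
    exact funext fun S => (mul_eq_zero.1 (congrFun this S)).resolve_left hs0

end

end Pool.Agent.Lib.MP_41050a_ag.CI
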