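import Pool.Agent.Lib.MP_41050a_ag.CI.Core
import Pool.Agent.Lib.MP_41050a_ag.CI.Geo
import Pool.Agent.Lib.MP_41050a_ag.DJ.D

/-! The count at a generic point of a line on a complete intersection. -/

namespace Pool.Agent.Lib.MP_41050a_ag.CI

open Polynomial NK DJ Module

set_option linter.unusedSectionVars false

noncomputable section

variable {k : Type} [Field k] [IsAlgClosed k] [CharZero k] {N c : ℕ} {K : Type} [Field K]
  [Algebra k K] {f : Fin c → Pk k N} {d : Fin c → ℕ}

theorem rel_cod (L : IntermediateField k K) {S : Set K} {r : ℕ}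
    (h : ∀ t : Fin (r + 1) → K, AlgebraicIndependent L t → (∀ l, t l ∈ S) → False) :
    Cod (Ann k (L : Set K)) (Ann k S) r := by
  obtain ⟨B, hB⟩ := (AlgebraicIndependent.matroid L K).exists_isBasis S
  have hi : AlgebraicIndependent L ((↑) : B → K) := hB.indep
  have hlt : ∀ g : Fin (r + 1) → B, ¬Function.Injective g := fun g hg =>
    h _ (hi.comp g hg) fun l => hB.subset (g l).2
  have : Finite B := by
    by_contra hf
    have := not_finite_iff_infinite.1 hf
    exact hlt _ ((Infinite.natEmbedding B).injective.comp Fin.val_injective)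
  obtain ⟨s, ⟨e⟩⟩ := Finite.exists_equiv_fin B
  have hr : s < r + 1 := by
    by_contra hr
    exact hlt _ (e.symm.injective.comp (Fin.castLE_injective (not_lt.1 hr)))
  refine ⟨s, ⟨⟨fun D l => D (e.symm l), fun _ _ => rfl⟩, fun _ _ => rfl⟩, by omega,
    fun D h1 hD a ha => ?_⟩
  obtain ⟨p, hp, hpa⟩ := (AlgebraicIndependent.matroid_isBasis_iff.1 hB).2.2 a ha
  have hle : (Algebra.adjoin L B).toSubring ≤
      (Algebra.adjoin k (Algebra.adjoin L B : Set K)).toSubring := Algebra.subset_adjoin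
  refine ann_alg (S := (Algebra.adjoin L B : Set K)) (fun b hb => ?_)
    ⟨p.map (Subring.inclusion hle),
      (Polynomial.map_ne_zero_iff (Subring.inclusion_injective hle)).2 hp, ?_⟩
  · induction hb using Algebra.adjoin_induction with
    | mem x hx => simpa using congrFun hD (e ⟨x, hx⟩)
    | algebraMap x => exact h1 _ x.2
    | add x y _ _ hx hy => rw [map_add, hx, hy, add_zero]
    | mul x y _ _ hx hy => rw [D.leibniz, hx, hy, smul_zero, smul_zero, add_zero]
  · rw [aeval_def, eval₂_map]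
    exact hpa

theorem small (hf : ∀ i, (f i).IsHomogeneous (d i)) (ns : NSc f) {y v : V K N} {i₀ : Fin (N + 1)}
    (hy : y i₀ ≠ 0) (hv : v i₀ = 0) (hl : ∀ i, MvPolynomial.aeval (ln y v) (f i) = 0) {r α : ℕ}
    (hα : α < ∑ i, (d i - 1)) {P : Fk (N + 1) (Pk k N)} {G : Fk (N + 1) K[X]} {s : K[X]}
    {S₀ : Finset (Fin (N + 1))} (hg : (G S₀).coeff 0 = 1) (hs : s.coeff 0 ≠ 0)
    (e1 : ∀ S, G S * s = MvPolynomial.aeval (ln y v) (P S)) (hd : Deg (r + c) G)
    (dG : ∀ S, (G S).natDegree ≤ α)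
    (hW : ∀ i, W (fun a => MvPolynomial.aeval (ln y v) (MvPolynomial.pderiv a (f i))) G = 0) :
    Cod (Ann k (Set.range y)) (Ann k (Set.range v)) r := by
  have : CharZero K := charZero_of_injective_algebraMap (algebraMap k K).injective
  by_cases hv0 : v = 0
  · refine (cod_zero ?_).mono (by omega)
    rintro D - _ ⟨i, rfl⟩
    simp [hv0]
  obtain ⟨b, hb⟩ : ∃ b : ℕ, (X * G S₀).eval (b : K) ≠ 0 := by
    by_contra h
    simp only [not_exists, not_not] at h
    have h1 := eq_zero_of_infinite_isRoot (X * G S₀)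
      (Set.infinite_of_injective_forall_mem (f := Nat.cast) Nat.cast_injective h)
    rw [(mul_eq_zero.1 h1).resolve_left X_ne_zero, coeff_zero] at hg
    exact zero_ne_one hg
  rw [eval_mul, eval_X, mul_ne_zero_iff] at hb
  obtain ⟨hb, hγ⟩ := hb
  set x : V K N := fun i => y i + b * v i with hx
  have hx0 : x i₀ = y i₀ := by simp [hx, hv]
  let L := IntermediateField.adjoin k (Set.range y)
  have hyL : ∀ i, y i ∈ L := fun i => IntermediateField.subset_adjoin k _ ⟨i, rfl⟩
  have hs0 : s.coeff 0 ∈ L := by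
    rw [← one_mul (s.coeff 0), ← hg, ← mul_coeff_zero, e1, ln_zero]
    exact aev_mem L.toSubalgebra.toSubring L.algebraMap_mem hyL _
  refine (rel_cod L (S := Set.range x) fun t => coreM (L := L) hf ns (x := x)
    (fun i => by rw [← ln_eval, hl, eval_zero]) (l₀ := ⟨y i₀, hyL i₀⟩)
    (fun e => hy (congrArg Subtype.val e)) hx0 (γ := evalRingHom (b : K) ∘ G)
    (fun e => hγ (congrFun e S₀)) (hd.map _) (fun i => ?_) (fun O hO μ h2 S => ?_) hα).weak
    (ann_adjoin _) ?_
  · have h1 := W_map (evalRingHom (b : K))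
      (fun a => MvPolynomial.aeval (ln y v) (MvPolynomial.pderiv a (f i))) G
    rw [hW] at h1
    refine Eq.trans (congrArg (W · _) (funext fun a => (ln_eval y v b _).symm))
      (h1.symm.trans (funext fun _ => map_zero _))
  · have hL : ∀ a ∈ L, a ∈ O := fun a ha => hO ⟨a, ha⟩
    obtain ⟨i₂, h3, h4⟩ := big O hv0
    have hμO : μ ∈ O := by
      have h5 := mul_mem (h2 i₀) (hL _ (inv_mem (hyL i₀)))
      rwa [hx0, mul_assoc, mul_inv_cancel₀ hy, mul_one] at h5
    have hν : μ * (b * v i₂) ∈ O := by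
      have h5 := sub_mem (h2 i₂) (mul_mem hμO (hL _ (hyL i₂)))
      rwa [hx, ← mul_sub, add_sub_cancel_left] at h5
    have h5 : (s.comp (C (v i₂)⁻¹ * X)).coeff 0 = s.coeff 0 := by
      rw [comp_C_mul_X_coeff, pow_zero, mul_one]
    have h6 := hom_eval O (A := (G S).comp (C (v i₂)⁻¹ * X)) (α := α)
      (natDegree_comp_le.trans ((Nat.mul_le_mul (dG S) (natDegree_C_mul_le _ _)).trans (by simp)))
      (gauss O (B := s.comp (C (v i₂)⁻¹ * X)) (h5 ▸ hs) (h5 ▸ hL _ (inv_mem hs0)) fun j => by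
        rw [← mul_comp, e1, ln_comp]
        exact ln_mem O (fun a => hL _ (L.algebraMap_mem a)) (fun i => hL _ (hyL i)) h4 _ j) hμO hν
    rwa [eval_comp, eval_mul, eval_C, eval_X, mul_left_comm, inv_mul_cancel₀ h3, mul_one] at h6
  · rintro D ⟨h1, h2⟩ _ ⟨i, rfl⟩
    have h3 := h2 _ ⟨i, rfl⟩
    rw [hx, map_add, h1 _ ⟨i, rfl⟩, zero_add, D.leibniz, D.map_natCast, smul_zero, add_zero,
      smul_eq_mul] at h3
    exact (mul_eq_zero.1 h3).resolve_left hb

theorem core (hf : ∀ i, (f i).IsHomogeneous (d i)) (hd : ∀ i, 1 ≤ d i) (ns : NSc f) {y v : V K N}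
    {i₀ : Fin (N + 1)} (hy : y i₀ ≠ 0) (hv : v i₀ = 0) (hf0 : ∀ i, MvPolynomial.aeval y (f i) = 0)
    (hG : On (RingHom.ker (MvPolynomial.aeval y : Pk k N →ₐ[k] K))
      fun i => (C (C (y i)) * X + C (X * C (v i)) : K[X][X]))
    {m : ℤ} (m1 : (N : ℤ) + 1 - c ≤ m) (m2 : 2 * (N : ℤ) + 1 - c - (∑ i, d i : ℕ) ≤ m) :
    Cod ⊤ (Ann k (Set.range y ∪ Set.range v)) m := by
  classical
  set I := RingHom.ker (MvPolynomial.aeval y : Pk k N →ₐ[k] K) with hI
  let ev1 : K[X][X] →ₐ[k] K[X] := (aeval (1 : K[X]) : K[X][X] →ₐ[K[X]] K[X]).restrictScalars k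
  let ev0 : K[X] →ₐ[k] K := (aeval (0 : K) : K[X] →ₐ[K] K).restrictScalars k
  have e1 : ev1 ∘ (fun i => (C (C (y i)) * X + C (X * C (v i)) : K[X][X])) = ln y v :=
    funext fun i => by simp [ev1, ln]
  have hon : On I (ln y v) := e1 ▸ hG.map ev1
  have hy' : Tg I (ln y v) fun i => C (y i) := by
    have := (der_tg hG ((derivative' (R := K[X])).restrictScalars k)).map ev1
    rw [e1] at this
    refine (congrArg (Tg I (ln y v)) (funext fun i => ?_)).mp this
    simp [ev1]
  have tg0 : ∀ W, Tg I (ln y v) W → (fun i => (W i).eval 0) ∈ tsp I y := fun W hW => by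
    have := hW.map ev0
    rwa [show ev0 ∘ ln y v = y from funext fun i => by simp [ev0, ln],
      show ev0 ∘ W = fun i => (W i).eval 0 from funext fun i => by simp [ev0]] at this
  have hD : ∀ D : Dr k K, Tg I (ln y v) (ln (DJ.dv k y D) (DJ.dv k v D)) := fun D =>
    (congrArg (Tg I (ln y v)) (funext (dP_ln D y v))).mp (der_tg hon (dP D))
  set W₁ := (Ann k (Set.range y)).map (DJ.dv k v) with hW₁
  have hC : ∀ w ∈ W₁ ⊔ K ∙ y, Tg I (ln y v) fun i => C (w i) := fun w hw => by
    obtain ⟨_, ⟨D, h1, rfl⟩, _, h2, rfl⟩ := Submodule.mem_sup.1 hw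
    obtain ⟨c, rfl⟩ := Submodule.mem_span_singleton.1 h2
    have h3 : Tg I (ln y v) fun i => C (DJ.dv k v D i) := by
      refine tg_of_smul X_ne_zero ((congrArg (Tg I (ln y v)) (funext fun i => ?_)).mp (hD D))
      have : DJ.dv k y D i = 0 := h1 _ ⟨i, rfl⟩
      simp [ln, this]
    refine (congrArg (Tg I (ln y v)) (funext fun i => ?_)).mp (h3.add (hy'.smul (C c)))
    simp
  have hle : W₁ ⊔ K ∙ y ≤ tsp I y := fun w hw => by simpa using tg0 _ (hC w hw)
  have hκ : finrank K ↥(W₁ ⊔ K ∙ y) = finrank K W₁ + 1 :=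
    Submodule.finrank_sup_span_singleton (by
      rintro ⟨D, -, h⟩
      have := congrFun h i₀
      exact hy (this.symm.trans (show D (v i₀) = 0 by rw [hv, map_zero])))
  obtain ⟨α, q, w, hα, hc, hw, hi⟩ := adapted hle
  choose D hDw using fun s => exists_der (hw s)
  have hr := tsp_rank (I := I) y
  have hT : finrank K (tsp I y) = finrank K W₁ + 1 + α := by
    rw [← hκ]
    exact hα.symm
  clear hα
  obtain ⟨g, hg, hsp, hgi⟩ := Submodule.exists_fun_fin_finrank_span_eq K {w : V K N | ∃ Φ ∈ I,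
    w = fun i => MvPolynomial.aeval y (MvPolynomial.pderiv i Φ)}
  choose Φ hΦ hgΦ using hg
  have hρ := (LinearIndependent.of_comp (Submodule.subtype _) (v := fun i =>
    (⟨_, Submodule.subset_span ⟨f i, hf0 i, rfl⟩⟩ : Submodule.span K {w : V K N | ∃ Φ ∈ I,
      w = fun i => MvPolynomial.aeval y (MvPolynomial.pderiv i Φ)}))
    (ns K y (Function.ne_iff.2 ⟨i₀, hy⟩) hf0)).fintype_card_le_finrank
  clear hsp
  generalize finrank K (Submodule.span K {w : V K N | ∃ Φ ∈ I,
    w = fun i => MvPolynomial.aeval y (MvPolynomial.pderiv i Φ)}) = ρ at *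
  rw [Fintype.card_fin] at hρ
  obtain ⟨r, rfl⟩ := Nat.exists_eq_add_of_le' hρ
  let τ : Fin _ ⊕ Fin α → V K[X] N :=
    Sum.elim (fun s i => C (q s i)) fun s => ln (w s) (DJ.dv k v (D s))
  have hτ : ∀ s, ∀ Ψ ∈ I, τ s ⬝ᵥ (fun a => MvPolynomial.aeval (ln y v) (MvPolynomial.pderiv a Ψ)) =
      0 := fun s Ψ hΨ => (dotProduct_comm _ _).trans ((show Tg I (ln y v) (τ s) by
    rcases s with s | s
    · exact hC _ (hc s)
    · have := hD (D s)
      rwa [show DJ.dv k y (D s) = w s from funext (hDw s)] at this) Ψ hΨ)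
  obtain ⟨G, s, S₀, h1, h2, h3, h4, h5, h6⟩ := plk (by omega)
    (fun l a => MvPolynomial.aeval (ln y v) (MvPolynomial.pderiv a (Φ l)))
    (τ ∘ finSumFinEquiv.symm) (Sum.elim (fun _ => 0) (fun _ => 1) ∘ finSumFinEquiv.symm)
    (fun s i => by
      simp only [Function.comp]
      rcases finSumFinEquiv.symm s with s | s
      · exact (natDegree_C _).le
      · exact ln_deg _ _ _)
    (by
      refine (congrArg (fun t : Fin (r + c) → V K N => LinearIndependent K t)
        (_root_.funext fun l => (hgΦ l).trans ?_)).mp hgi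
      exact _root_.funext fun a => (ln_zero y v _).symm.trans (coeff_zero_eq_eval_zero _))
    (by
      refine (congrArg (fun t : Fin (_ + α) → V K N => LinearIndependent K t)
        (_root_.funext fun s => _root_.funext fun i => ?_)).mp
          (hi.comp _ finSumFinEquiv.symm.injective)
      simp only [Function.comp]
      rcases finSumFinEquiv.symm s with s | s <;> simp [ln, τ])
    fun s l => hτ _ _ (hΦ l)
  have c1 : Cod ⊤ (Ann k (Set.range y)) (finrank K (tsp I y)) :=
    cod_of_map (DJ.dv k y) (T := tsp I y) (T' := ⊥) bot_le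
      (fun D _ => der_tg (fun _ h => h) D)
      (by rintro D - h _ ⟨i, rfl⟩; exact congrFun ((Submodule.mem_bot K).1 h) i) (by simp)
  rw [ann_union]
  by_cases hα : α < ∑ i, (d i - 1)
  · refine (c1.step (small hf ns hy hv (fun i => hon _ (hf0 i)) hα (r := r)
      (P := WW (ex fun l a => MvPolynomial.pderiv a (Φ l)) (r + c) (Pi.single ∅ 1)) h1 h2
      (fun S => ?_) (by exact_mod_cast h4) (fun S => ?_) fun i => h6 _ fun s => hτ _ _ (hf0 i))
      inf_le_right).mono (by omega)
    · have := WW_map (MvPolynomial.aeval (ln y v) : Pk k N →ₐ[k] K[X]).toRingHom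
        (ex fun l a => MvPolynomial.pderiv a (Φ l)) (r + c) (Pi.single ∅ 1)
      rw [map_ex, map_single] at this
      exact (h3 S).trans (congrFun this S).symm
    · have := h5 S
      simp only [Function.comp] at this
      rw [finSumFinEquiv.symm.sum_comp] at this
      simpa using this
  · have c2 : Cod (Ann k (Set.range y)) (Ann k (Set.range v)) (finrank K W₁) :=
      cod_of_map (DJ.dv k v) (T := W₁) (T' := ⊥) bot_le (fun D h => ⟨D, h, rfl⟩)
        (by rintro D - h _ ⟨i, rfl⟩; exact congrFun ((Submodule.mem_bot K).1 h) i) (by simp)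
    have : ∑ i, (d i - 1) + c = ∑ i, d i := by
      rw [← Finset.sum_congr rfl fun i _ => Nat.sub_add_cancel (hd i), Finset.sum_add_distrib]
      simp
    refine (c1.step c2 inf_le_right).mono ?_
    omega

end

end Pool.Agent.Lib.MP_41050a_ag.CI
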