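import Pool.Agent.Lib.MP_41050a_ag.CI.Spr
import Pool.Agent.Lib.MP_41050a_ag.DJ.A

/-! A multivector of low degree killed by the gradients forces the cone to be small. -/

namespace Pool.Agent.Lib.MP_41050a_ag.CI

open MvPolynomial

/-- The gradients are independent at every nonzero common zero, over every extension field. -/
def NSc {k : Type} [Field k] {n c : ℕ} (f : Fin c → MvPolynomial (Fin n) k) : Prop :=
  ∀ (F : Type) [Field F] [Algebra k F] (x : Fin n → F), x ≠ 0 → (∀ i, aeval x (f i) = 0) →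
    LinearIndependent F fun (i : Fin c) (a : Fin n) => aeval x (pderiv a (f i))

theorem nsc_of {k : Type} [Field k] [IsAlgClosed k] {n c : ℕ} {f : Fin c → MvPolynomial (Fin n) k}
    (hs : ∀ x : Fin n → k, x ≠ 0 → (∀ i, aeval x (f i) = 0) →
      LinearIndependent k fun (i : Fin c) (a : Fin n) => aeval x (pderiv a (f i))) : NSc f := by
  intro F _ _ x hx hf
  rw [Fintype.linearIndependent_iff]
  intro l hl i
  obtain ⟨j, hj⟩ := Function.ne_iff.1 hx
  let s : Fin c ⊕ Fin n → MvPolynomial (Fin n ⊕ Fin c) k := Sum.elim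
    (fun i => rename Sum.inl (f i)) fun a => ∑ i, X (Sum.inr i) * rename Sum.inl (pderiv a (f i))
  have h1 : (X (Sum.inl j) * X (Sum.inr i) : MvPolynomial (Fin n ⊕ Fin c) k) ∈
      (Ideal.span (Set.range s)).radical := by
    rw [← vanishingIdeal_zeroLocus_eq_radical (K := k)]
    intro y hy
    have h2 := fun a => hy _ (Ideal.subset_span ⟨a, rfl⟩)
    rw [map_mul, aeval_X, aeval_X]
    by_cases h0 : y ∘ Sum.inl = 0
    · rw [show y (Sum.inl j) = 0 from congrFun h0 j, zero_mul]
    · rw [Fintype.linearIndependent_iff.1 (hs _ h0 fun i => by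
        simpa [s, aeval_rename] using h2 (Sum.inl i)) (fun i => y (Sum.inr i))
        (funext fun a => by simpa [s, eval_rename] using h2 (Sum.inr a)) i, mul_zero]
  obtain ⟨m, hm⟩ := h1
  have h3 : Ideal.span (Set.range s) ≤ RingHom.ker (aeval (Sum.elim x l)).toRingHom := by
    rw [Ideal.span_le]
    rintro _ ⟨a | a, rfl⟩
    · simpa [s, aeval_rename] using hf a
    · simpa [s, aeval_rename] using congrFun hl a
  have h4 := h3 hm
  simp only [RingHom.mem_ker, AlgHom.toRingHom_eq_coe, RingHom.coe_coe, map_pow, map_mul, aeval_X,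
    Sum.elim_inl, Sum.elim_inr] at h4
  exact (mul_eq_zero.1 (pow_eq_zero_iff' .. |>.1 h4).1).resolve_left hj

theorem exists_minor {E : Type} [Field E] {n c : ℕ} {G : Fin c → Fin n → E}
    (h : LinearIndependent E G) : ∃ J : Fin c → Fin n, (Matrix.of fun i l => G i (J l)).det ≠ 0 := by
  have h1 : (Matrix.of G).rank = c :=
    (LinearIndependent.rank_matrix (M := Matrix.of G) h).trans (Fintype.card_fin _)
  obtain ⟨κ, a, ha, hs, hl⟩ := exists_linearIndependent' E (Matrix.of G).col
  have := Finite.of_injective a ha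
  have := Fintype.ofFinite κ
  rw [Matrix.rank_eq_finrank_span_cols, ← hs, finrank_span_eq_card hl] at h1
  let e := (Fintype.equivFinOfCardEq h1).symm
  have h2 : LinearIndependent E (Matrix.of fun j l => G j (a (e l))).col := hl.comp e e.injective
  exact ⟨fun l => a (e l),
    ((Matrix.isUnit_iff_isUnit_det _).1 (Matrix.linearIndependent_cols_iff_isUnit.1 h2)).ne_zero⟩

theorem sp_minor {R : Type} [CommRing R] {n c : ℕ} (w : Fin c → Fin n → R) (J : Fin c → Fin n) :
    Sp (Matrix.of fun i l => w i (J l)).det (fun i => if h : i < c then w ⟨i, h⟩ else 0) c := by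
  refine ⟨fun i => if h : i < c then ∑ l, Pi.single (J l)
    ((Matrix.of fun i l => w i (J l)).adjugate l ⟨i, h⟩) else 0, fun i hi j hj => ?_⟩
  have := congrFun (congrFun (Matrix.mul_adjugate (Matrix.of fun i l => w i (J l))) ⟨j, hj⟩) ⟨i, hi⟩
  rw [Matrix.mul_apply, Matrix.smul_apply, Matrix.one_apply] at this
  simp only [dif_pos hi, dif_pos hj, sum_dotProduct, single_dotProduct]
  simp only [mul_comm (Matrix.adjugate _ _ _)]
  refine this.trans ?_
  by_cases h : i = j
  · subst h
    simp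
  · rw [if_neg h, if_neg fun e => h (congrArg Fin.val e).symm, smul_zero]

theorem exists_val {R Ω : Type} [CommRing R] [Field Ω] (ψ : R →+* Ω) (hψ : Function.Injective ψ)
    (P : Ideal R) [P.IsPrime] : ∃ O : ValuationSubring Ω, (∀ y, ψ y ∈ O) ∧
      ∀ y, O.valuation (ψ y) < 1 ↔ y ∈ P := by
  have hu : ∀ y : P.primeCompl, IsUnit (ψ y) := fun y =>
    isUnit_iff_ne_zero.2 ((map_ne_zero_iff ψ hψ).2 fun e => y.2 (e ▸ P.zero_mem))
  obtain ⟨O, h, hO⟩ := IsLocalRing.exists_factor_valuationRing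
    (IsLocalization.lift (S := Localization.AtPrime P) hu)
  have h1 : ∀ y, ψ y ∈ O := fun y => IsLocalization.lift_eq (S := Localization.AtPrime P) hu y ▸ h _
  refine ⟨O, h1, fun y => ?_⟩
  rw [← IsLocalization.AtPrime.to_map_mem_maximal_iff (Localization.AtPrime P) P y,
    IsLocalRing.mem_maximalIdeal, mem_nonunits_iff, ← isUnit_map_iff
      ((IsLocalization.lift hu).codRestrict O.toSubring h), ← IsLocalization.lift_eq
      (S := Localization.AtPrime P) hu y]
  exact (O.valuation_lt_one_iff ⟨_, h _⟩).symm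

theorem noether {L R τ : Type} [Field L] [CommRing R] [IsDomain R] [Algebra L R]
    [Algebra.FiniteType L R] {g : τ → R} (hg : Algebra.adjoin L (Set.range g) = ⊤) :
    ∃ (s : ℕ) (z : Fin s → R), AlgebraicIndependent L z ∧ (∀ j, z j ∈ Ideal.span (Set.range g)) ∧
      (aeval z : MvPolynomial (Fin s) L →ₐ[L] R).toRingHom.IsIntegral ∧
      Algebra.trdeg L (FractionRing R) = s := by
  obtain ⟨s, φ, hinj, hint⟩ := exists_integral_inj_algHom_of_fg L R
  have h1 : ∀ y ∈ Algebra.adjoin L (Set.range g),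
      ∃ l, y - algebraMap L R l ∈ Ideal.span (Set.range g) := fun y hy => by
    induction hy using Algebra.adjoin_induction with
    | mem y hy => exact ⟨0, by simpa using Ideal.subset_span hy⟩
    | algebraMap a => exact ⟨a, by simp⟩
    | add x y _ _ hx hy =>
      obtain ⟨a, ha⟩ := hx
      obtain ⟨b, hb⟩ := hy
      exact ⟨a + b, by rw [map_add, add_sub_add_comm]; exact add_mem ha hb⟩
    | mul x y _ _ hx hy =>
      obtain ⟨a, ha⟩ := hx
      obtain ⟨b, hb⟩ := hy
      refine ⟨a * b, ?_⟩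
      rw [map_mul, show x * y - algebraMap L R a * algebraMap L R b =
        y * (x - algebraMap L R a) + algebraMap L R a * (y - algebraMap L R b) by ring]
      exact add_mem (Ideal.mul_mem_left _ _ ha) (Ideal.mul_mem_left _ _ hb)
  choose l hl using fun j => h1 (φ (X j)) (hg ▸ Algebra.mem_top)
  let σ : MvPolynomial (Fin s) L ≃ₐ[L] MvPolynomial (Fin s) L := AlgEquiv.ofAlgHom
    (aeval fun j => X j - C (l j)) (aeval fun j => X j + C (l j))
    (algHom_ext fun j => by simp) (algHom_ext fun j => by simp)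
  have h2 : aeval (fun j => φ (X j) - algebraMap L R (l j)) = φ.comp σ.toAlgHom :=
    algHom_ext fun j => by simp [σ]
  refine ⟨s, _, ?_, hl, ?_, ?_⟩
  · rw [AlgebraicIndependent, h2]
    exact hinj.comp σ.injective
  · rw [h2]
    exact RingHom.IsIntegral.trans _ _ (RingHom.isIntegral_of_surjective σ.toRingHom σ.surjective)
      hint
  · let : Algebra (MvPolynomial (Fin s) L) R := φ.toRingHom.toAlgebra
    have : IsScalarTower L (MvPolynomial (Fin s) L) R :=
      IsScalarTower.of_algebraMap_eq fun c => (φ.commutes c).symm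
    have : FaithfulSMul (MvPolynomial (Fin s) L) R :=
      (faithfulSMul_iff_algebraMap_injective _ _).2 hinj
    have : Algebra.IsIntegral (MvPolynomial (Fin s) L) R := ⟨hint⟩
    have := IsLocalization.isAlgebraic (FractionRing R) (nonZeroDivisors R)
    rw [← trdeg_add_eq L R (A := FractionRing R), trdeg_eq_zero (R := R) (A := FractionRing R),
      ← trdeg_add_eq L (MvPolynomial (Fin s) L) (A := R),
      trdeg_eq_zero (R := MvPolynomial (Fin s) L) (A := R), trdeg_of_isDomain]
    simp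

theorem aev_hom {k R K : Type} [Field k] [CommRing R] [Algebra k R] [Field K] [Algebra k K]
    (ι : R →+* Polynomial K) (hι : ∀ a, ι (algebraMap k R a) = Polynomial.C (algebraMap k K a))
    {n : ℕ} {y : Fin n → R} {x : Fin n → K}
    (h : ∀ j, ι (y j) = Polynomial.X ^ 2 * Polynomial.C (x j)) {p : MvPolynomial (Fin n) k} {d : ℕ}
    (hp : p.IsHomogeneous d) :
    ι (aeval y p) = Polynomial.X ^ (2 * d) * Polynomial.C (aeval x p) := by
  rw [aeval_def, aeval_def, eval₂_eq', eval₂_eq', map_sum, map_sum, Finset.mul_sum]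
  refine Finset.sum_congr rfl fun m hm => ?_
  have h1 : ∑ i, m i = d := by
    rw [← hp (mem_support_iff.1 hm), Finsupp.weight_apply, Finsupp.sum_fintype]
    · simp
    · simp
  simp only [map_mul, map_prod, map_pow, hι, h, mul_pow, Finset.prod_mul_distrib,
    Finset.prod_pow_eq_pow_sum, h1, pow_mul]
  ring

theorem coreM {k L K : Type} [Field k] [Field L] [Field K] [Algebra k L] [Algebra L K]
    [Algebra k K] [IsScalarTower k L K] {n c r α : ℕ} {f : Fin c → MvPolynomial (Fin n) k}
    {d : Fin c → ℕ} (hf : ∀ i, (f i).IsHomogeneous (d i)) (ns : NSc f) {x : Fin n → K}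
    (hx : ∀ i, aeval x (f i) = 0) {i₀ : Fin n} {l₀ : L} (hl : l₀ ≠ 0)
    (hx₀ : x i₀ = algebraMap L K l₀) {γ : Fk n K} (h0 : γ ≠ 0) (hd : Deg (r + c) γ)
    (hW : ∀ i, W (fun a => aeval x (pderiv a (f i))) γ = 0)
    (hv : ∀ O : ValuationSubring K, (∀ a : L, algebraMap L K a ∈ O) → ∀ μ : K,
      (∀ j, μ * x j ∈ O) → ∀ S, μ ^ α * γ S ∈ O)
    (hα : α < ∑ i, (d i - 1)) {t : Fin (r + 1) → K} (ht : AlgebraicIndependent L t)
    (htx : ∀ l, t l ∈ Set.range x) : False := by
  classical
  let g : Fin n ⊕ Finset (Fin n) → Polynomial K := Sum.elim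
    (fun j => Polynomial.X ^ 2 * Polynomial.C (x j))
    fun S => Polynomial.X ^ (2 * α + 1) * Polynomial.C (γ S)
  let R := Algebra.adjoin L (Set.range g)
  have : Algebra.FiniteType L R := Algebra.FiniteType.adjoin_of_finite (Set.finite_range g)
  let ι : R →+* Polynomial K := R.val.toRingHom
  have hι : Function.Injective ι := Subtype.val_injective
  let g' : Fin n ⊕ Finset (Fin n) → R := fun a => ⟨g a, Algebra.subset_adjoin ⟨a, rfl⟩⟩
  obtain ⟨s, z, hz, hz', hint, htr⟩ := noether (L := L) (g := g') (by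
    rw [← Algebra.adjoin_adjoin_coe_preimage (R := L) (s := Set.range g)]
    congr 1
    ext y
    exact ⟨fun ⟨a, h⟩ => ⟨a, congrArg Subtype.val h⟩, fun ⟨a, h⟩ => ⟨a, Subtype.ext h⟩⟩)
  have ha : ∀ {p : MvPolynomial (Fin n) k} {e : ℕ}, p.IsHomogeneous e →
      ι (aeval (fun j => g' (Sum.inl j)) p) = Polynomial.X ^ (2 * e) * Polynomial.C (aeval x p) :=
    fun hp => aev_hom ι (fun a => by
      rw [IsScalarTower.algebraMap_apply k L R, IsScalarTower.algebraMap_apply k L K]
      rfl) (fun j => rfl) hp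
  let w : Fin c → Fin n → R := fun i a => aeval (fun j => g' (Sum.inl j)) (pderiv a (f i))
  let ω : ℕ → Fin n → R := fun i => if h : i < c then w ⟨i, h⟩ else 0
  let I : Ideal R :=
    { carrier := {a | Sp a ω c}
      zero_mem' := ⟨0, fun i _ j _ => by simp⟩
      add_mem' := fun ⟨u, hu⟩ ⟨v, hv⟩ => ⟨u + v, fun i hi j hj => by
        rw [Pi.add_apply, add_dotProduct, hu i hi j hj, hv i hi j hj]
        split_ifs <;> simp⟩
      smul_mem' := fun a _ ⟨u, hu⟩ => ⟨a • u, fun i hi j hj => by
        rw [Pi.smul_apply, smul_dotProduct, hu i hi j hj]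
        split_ifs <;> simp⟩ }
  let Ω := FractionRing (Polynomial K)
  have hΩ : Function.Injective (algebraMap (Polynomial K) Ω) := IsFractionRing.injective _ _
  let ψ : R →ₐ[L] Ω := (IsScalarTower.toAlgHom L (Polynomial K) Ω).comp R.val
  have hψ : Function.Injective ψ := hΩ.comp hι
  let T := algebraMap (Polynomial K) Ω Polynomial.X
  have hT : ∀ j, ψ (g' (Sum.inl j)) = T ^ 2 * algebraMap K Ω (x j) := fun j => by
    rw [IsScalarTower.algebraMap_apply K (Polynomial K) Ω, ← map_pow, ← map_mul]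
    rfl
  have hT' : ∀ S, ψ (g' (Sum.inr S)) = T ^ (2 * α + 1) * algebraMap K Ω (γ S) := fun S => by
    rw [IsScalarTower.algebraMap_apply K (Polynomial K) Ω, ← map_pow, ← map_mul]
    rfl
  have hl' : algebraMap L K l₀ ≠ 0 := (map_ne_zero _).2 hl
  have hI : Ideal.span (Set.range g') ≤ I.radical := by
    rw [Ideal.radical_eq_sInf]
    refine le_sInf fun P ⟨hP, _⟩ => ?_
    have h1 : ∀ j, g' (Sum.inl j) ∈ P := by
      by_contra hc
      obtain ⟨j, hj⟩ := not_forall.1 hc
      let F := FractionRing (R ⧸ P)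
      let φ : R →ₐ[k] F := (IsScalarTower.toAlgHom k (R ⧸ P) F).comp (Ideal.Quotient.mkₐ k P)
      have hφ : ∀ y, φ y = 0 ↔ y ∈ P := fun y =>
        (map_eq_zero_iff _ (IsFractionRing.injective (R ⧸ P) F)).trans
          Ideal.Quotient.eq_zero_iff_mem
      have h2 : ∀ p : MvPolynomial (Fin n) k, aeval (fun j => φ (g' (Sum.inl j))) p =
          φ (aeval (fun j => g' (Sum.inl j)) p) := fun p => (comp_aeval_apply _ _ _).symm
      obtain ⟨J, hJ⟩ := exists_minor (ns F (fun j => φ (g' (Sum.inl j)))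
        (fun e => hj ((hφ _).1 (congrFun e j))) fun i => by
          rw [h2, (map_eq_zero_iff ι hι).1 ((ha (hf i)).trans (by rw [hx, map_zero, mul_zero])),
            map_zero])
      refine hJ ?_
      have h3 := (hφ _).2 (hP (sp_minor w J))
      rw [AlgHom.map_det] at h3
      rw [← h3]
      congr 1
      ext i l
      exact h2 _
    obtain ⟨O, hO, hO'⟩ := exists_val ψ.toRingHom hψ P
    have hL : ∀ a : L, algebraMap K Ω (algebraMap L K a) ∈ O := fun a => by
      rw [← IsScalarTower.algebraMap_apply, ← ψ.commutes]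
      exact hO _
    have h4 : ∀ j, O.valuation (T ^ 2 * algebraMap K Ω (x j)) < 1 := fun j =>
      hT j ▸ (hO' _).2 (h1 j)
    have h5 : O.valuation T < 1 := by
      have h6 := (O.valuation_le_one_iff _).2 (hL l₀⁻¹)
      have h7 := mul_lt_one_of_nonneg_of_lt_one_left zero_le (h4 i₀) h6
      rw [← map_mul, hx₀, mul_assoc, ← map_mul, ← map_mul, mul_inv_cancel₀ hl, map_one, map_one,
        mul_one, map_pow] at h7
      exact (pow_lt_one_iff two_ne_zero).1 h7
    obtain ⟨i, hi, hi'⟩ := DJ.big (O.comap (algebraMap K Ω)) (x := x)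
      fun e => hl' (hx₀ ▸ congrFun e i₀)
    rw [Ideal.span_le]
    rintro _ ⟨j | S, rfl⟩
    · exact h1 j
    · refine (hO' _).1 ?_
      have h6 : O.valuation (algebraMap K Ω ((x i)⁻¹ ^ α * γ S)) ≤ 1 :=
        (O.valuation_le_one_iff _).2 (hv (O.comap (algebraMap K Ω)) hL _ hi' S)
      have h7 : ψ (g' (Sum.inr S)) = T * ((T ^ 2 * algebraMap K Ω (x i)) ^ α *
          algebraMap K Ω ((x i)⁻¹ ^ α * γ S)) := by
        rw [hT', map_mul, map_pow, ← mul_assoc (_ ^ α), ← mul_pow, mul_assoc (T ^ 2), ← map_mul,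
          mul_inv_cancel₀ hi, map_one]
        ring
      refine (congrArg O.valuation h7).trans_lt ?_
      rw [map_mul, map_mul, map_pow]
      exact mul_lt_one_of_nonneg_of_lt_one_left zero_le h5
        (mul_le_one' (pow_le_one' (h4 i).le _) h6)
  have hs : r + 2 ≤ s := by
    choose j hj using htx
    let E := FractionRing R
    let v : Unit ⊕ Fin (r + 1) → E := Sum.elim
      (fun _ => algebraMap R E (l₀⁻¹ • g' (Sum.inl i₀)))
      fun l => algebraMap R E (g' (Sum.inl (j l))) / algebraMap R E (l₀⁻¹ • g' (Sum.inl i₀))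
    have h1 : ψ (l₀⁻¹ • g' (Sum.inl i₀)) = T ^ 2 := by
      rw [map_smul, hT, hx₀, ← IsScalarTower.algebraMap_apply, Algebra.smul_def, mul_left_comm,
        ← map_mul, inv_mul_cancel₀ hl, map_one, mul_one]
    have h2 : Transcendental K (T ^ 2) :=
      ((transcendental_algebraMap_iff hΩ).2 (Polynomial.transcendental_X K)).pow two_pos
    have h3 := ht.sumElim_comp
      ((algebraicIndependent_unique_type_iff (x := fun _ : Unit => T ^ 2)).2 h2)
    have h4 : (IsFractionRing.liftAlgHom hψ : E →ₐ[L] Ω) ∘ v =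
        Sum.elim (fun _ : Unit => T ^ 2) (algebraMap K Ω ∘ t) := by
      funext a
      obtain a | l := a
      · simpa [v] using h1
      · have : T ^ 2 ≠ 0 := fun e => h2 (e ▸ isAlgebraic_zero)
        simp only [v, Function.comp_apply, Sum.elim_inr, map_div₀, IsFractionRing.liftAlgHom_apply,
          IsFractionRing.lift_algebraMap, AlgHom.toRingHom_eq_coe, RingHom.coe_coe, h1, hT, hj]
        exact mul_div_cancel_left₀ _ this
    have h5 := (AlgebraicIndependent.of_comp _ (h4 ▸ h3)).cardinalMk_le_trdeg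
    rw [htr] at h5
    simp only [Cardinal.mk_fintype, Fintype.card_sum, Fintype.card_unique, Fintype.card_fin,
      Nat.cast_le] at h5
    omega
  obtain ⟨S₀, hS₀⟩ := Function.ne_iff.1 h0
  obtain ⟨p, hp, hp'⟩ := hint (g' (Sum.inr S₀))
  obtain ⟨m, hm, hm'⟩ := Ideal.exists_coeff_ne_zero_mem_comap_of_root_mem
    (I := Ideal.span {g' (Sum.inr S₀)}) (fun e => mul_ne_zero (pow_ne_zero _ Polynomial.X_ne_zero)
      (Polynomial.C_ne_zero.2 hS₀) (congrArg Subtype.val e)) (Ideal.mem_span_singleton_self _)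
    hp.ne_zero hp'
  obtain ⟨h, hh⟩ := Ideal.mem_span_singleton.1 hm'
  have hc : (aeval (R.val ∘ z) : MvPolynomial (Fin s) L →ₐ[L] Polynomial K) =
      R.val.comp (aeval z) := algHom_ext fun j => by simp
  have hω : ∀ i (hi : i < c) a, ι (ω i a) = Polynomial.X ^ (2 * (d ⟨i, hi⟩ - 1)) *
      Polynomial.C (aeval x (pderiv a (f ⟨i, hi⟩))) := fun i hi a => by
    simp only [ω, dif_pos hi]
    exact ha (hf _).pderiv
  have key := spread (L := L) (g := g) (by rintro (a | a) <;> exact ⟨_, _, rfl⟩) (k := c) hs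
    (hz.map' (f := R.val) hι) (fun j => (z j).2) (fun a => ?_) (ω := fun i => ι ∘ ω i)
    (fun i j => (ω i j).2) (fun j => ?_) (G := fun S => g (Sum.inr S))
    (fun S => (g' (Sum.inr S)).2) (fun S hS => by simp [g, hd S hS]) (fun i hi => ?_)
    (e := fun i => if h : i < c then 2 * (d ⟨i, h⟩ - 1) else 0)
    (fun i hi j => ⟨_, by rw [dif_pos hi]; exact hω i hi j⟩) (S₀ := S₀) rfl hm h.2
    (by rw [hc]; exact congrArg ι hh)
  · rw [Finset.sum_range] at key
    simp only [Fin.is_lt, dif_pos, Fin.eta, ← Finset.mul_sum] at key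
    omega
  · obtain ⟨q, hq, hq'⟩ := hint (g' a)
    refine ⟨q, hq, ?_⟩
    have := congrArg ι hq'
    rw [Polynomial.hom_eval₂, map_zero] at this
    rw [hc]
    exact this
  · obtain ⟨m, u, hu⟩ := hI (hz' j)
    refine ⟨m, fun i => ι ∘ u i, fun i a => (u i a).2, fun i hi i' hi' => ?_⟩
    rw [← RingHom.map_dotProduct, hu i hi i' hi', apply_ite ι, map_zero, map_pow]
    rfl
  · have h1 := W_map Polynomial.C (fun a => aeval x (pderiv a (f ⟨i, hi⟩))) γ
    rw [hW] at h1
    rw [show ι ∘ ω i = (Polynomial.X ^ (2 * (d ⟨i, hi⟩ - 1)) : Polynomial K) •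
      (Polynomial.C ∘ fun a => aeval x (pderiv a (f ⟨i, hi⟩))) from funext (hω i hi), W_smul,
      show (fun S => g (Sum.inr S)) = (Polynomial.X ^ (2 * α + 1) : Polynomial K) •
      (Polynomial.C ∘ γ) from rfl, map_smul, ← h1]
    funext S
    simp

end Pool.Agent.Lib.MP_41050a_ag.CI
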