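import Mathlib

/-! The exterior algebra in coordinates: exterior and interior multiplication. -/

namespace Pool.Agent.Lib.MP_41050a_ag.CI

open Finset

variable {n : ℕ} {R R' : Type} [CommRing R] [CommRing R']

/-- Coordinates of an element of the exterior algebra. -/
abbrev Fk (n : ℕ) (R : Type) : Type := Finset (Fin n) → R

/-- The sign of a transposition. -/
def ee (R : Type) [CommRing R] (x a : Fin n) : R := if x < a then -1 else 1

/-- The sign of moving `a` past the smaller members of `S`. -/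
def sg (R : Type) [CommRing R] (a : Fin n) (S : Finset (Fin n)) : R := ∏ x ∈ S, ee R x a

/-- Exterior multiplication. -/
def W (ω : Fin n → R) : Fk n R →ₗ[R] Fk n R where
  toFun η S := ∑ a ∈ S, ω a * sg R a S * η (S.erase a)
  map_add' η η' := funext fun S => by simp [mul_add, sum_add_distrib]
  map_smul' c η := funext fun S => by
    simp only [Pi.smul_apply, smul_eq_mul, RingHom.id_apply, mul_sum]
    exact sum_congr rfl fun a _ => by ring

/-- Interior multiplication. -/
def Cn (u : Fin n → R) : Fk n R →ₗ[R] Fk n R where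
  toFun η S := ∑ a ∈ Sᶜ, u a * sg R a S * η (insert a S)
  map_add' η η' := funext fun S => by simp [mul_add, sum_add_distrib]
  map_smul' c η := funext fun S => by
    simp only [Pi.smul_apply, smul_eq_mul, RingHom.id_apply, mul_sum]
    exact sum_congr rfl fun a _ => by ring

/-- Homogeneous of degree `p`. -/
def Deg (p : ℤ) (η : Fk n R) : Prop := ∀ S, (S.card : ℤ) ≠ p → η S = 0

/-- The product `W (ω 0) ∘ ⋯ ∘ W (ω (k - 1))`. -/
def WW (ω : ℕ → Fin n → R) : ℕ → Fk n R →ₗ[R] Fk n R
  | 0 => LinearMap.id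
  | k + 1 => WW ω k ∘ₗ W (ω k)

/-- Dual vectors up to the factor `a`. -/
def Sp (a : R) (ω : ℕ → Fin n → R) (k : ℕ) : Prop :=
  ∃ u : ℕ → Fin n → R, ∀ i < k, ∀ j < k, u i ⬝ᵥ ω j = if i = j then a else 0

theorem W_apply (ω : Fin n → R) (η : Fk n R) (S : Finset (Fin n)) :
    W ω η S = ∑ a ∈ S, ω a * sg R a S * η (S.erase a) := rfl

theorem Cn_apply (u : Fin n → R) (η : Fk n R) (S : Finset (Fin n)) :
    Cn u η S = ∑ a ∈ Sᶜ, u a * sg R a S * η (insert a S) := rfl

theorem WW_zero (ω : ℕ → Fin n → R) (η : Fk n R) : WW ω 0 η = η := rfl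

theorem WW_succ (ω : ℕ → Fin n → R) (k : ℕ) (η : Fk n R) :
    WW ω (k + 1) η = WW ω k (W (ω k) η) := rfl

theorem ee_sq (x a : Fin n) : ee R x a * ee R x a = 1 := by
  unfold ee
  split_ifs <;> simp

theorem ee_self (a : Fin n) : ee R a a = 1 := if_neg (lt_irrefl a)

theorem ee_add {a b : Fin n} (h : a ≠ b) : ee R a b + ee R b a = 0 := by
  unfold ee
  rcases lt_or_gt_of_ne h with h | h
  · rw [if_pos h, if_neg h.not_gt, neg_add_cancel]
  · rw [if_pos h, if_neg h.not_gt, add_neg_cancel]

theorem sg_sq (a : Fin n) (S : Finset (Fin n)) : sg R a S * sg R a S = 1 := by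
  rw [sg, ← prod_mul_distrib]
  exact prod_eq_one fun x _ => ee_sq x a

theorem sg_insert {a : Fin n} {S : Finset (Fin n)} (h : a ∉ S) (b : Fin n) :
    sg R b (insert a S) = ee R a b * sg R b S := prod_insert h

theorem sg_erase {a : Fin n} {S : Finset (Fin n)} (h : a ∈ S) (b : Fin n) :
    sg R b (S.erase a) = ee R a b * sg R b S := by
  rw [sg, sg, ← mul_prod_erase S _ h, ← mul_assoc, ee_sq, one_mul]

theorem map_sg (φ : R →+* R') (a : Fin n) (S : Finset (Fin n)) : φ (sg R a S) = sg R' a S := by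
  rw [sg, map_prod]
  refine prod_congr rfl fun x _ => ?_
  unfold ee
  split_ifs <;> simp

theorem W_map (φ : R →+* R') (ω : Fin n → R) (η : Fk n R) :
    φ ∘ W ω η = W (φ ∘ ω) (φ ∘ η) := funext fun S => by
  simp [W_apply, map_sg]

theorem Cn_map (φ : R →+* R') (u : Fin n → R) (η : Fk n R) :
    φ ∘ Cn u η = Cn (φ ∘ u) (φ ∘ η) := funext fun S => by
  simp [Cn_apply, map_sg]

theorem WW_map (φ : R →+* R') (ω : ℕ → Fin n → R) (k : ℕ) (η : Fk n R) :
    φ ∘ WW ω k η = WW (fun i => φ ∘ ω i) k (φ ∘ η) := by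
  induction k generalizing η with
  | zero => rfl
  | succ k ih => rw [WW_succ, WW_succ, ih, W_map]

theorem W_add (ω ω' : Fin n → R) (η : Fk n R) : W (ω + ω') η = W ω η + W ω' η :=
  funext fun S => by simp [W_apply, add_mul, sum_add_distrib]

theorem W_smul (c : R) (ω : Fin n → R) (η : Fk n R) : W (c • ω) η = c • W ω η :=
  funext fun S => by simp [W_apply, mul_sum, mul_assoc]

theorem W_W (ω : Fin n → R) (η : Fk n R) : W ω (W ω η) = 0 := by
  funext S
  have e : W ω (W ω η) S = ∑ x ∈ S.offDiag, ω x.1 * ω x.2 * ee R x.1 x.2 * sg R x.1 S *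
      sg R x.2 S * η ((S.erase x.1).erase x.2) := by
    rw [W_apply, sum_finset_product S.offDiag S (fun a => S.erase a) fun x => by
      simp only [mem_offDiag, mem_erase]
      tauto]
    refine sum_congr rfl fun a ha => ?_
    rw [W_apply, mul_sum]
    refine sum_congr rfl fun b _ => ?_
    rw [sg_erase ha]
    ring
  rw [e]
  refine sum_involution (fun x _ => x.swap) (fun x hx => ?_) (fun x hx _ h => ?_)
    (fun x hx => ?_) fun x _ => rfl
  · simp only [Prod.fst_swap, Prod.snd_swap]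
    rw [erase_right_comm (a := x.2)]
    linear_combination (ω x.1 * ω x.2 * sg R x.1 S * sg R x.2 S * η ((S.erase x.1).erase x.2)) *
      ee_add (R := R) (mem_offDiag.1 hx).2.2
  · exact (mem_offDiag.1 hx).2.2 (congrArg Prod.snd h)
  · obtain ⟨h1, h2, h3⟩ := mem_offDiag.1 hx
    exact mem_offDiag.2 ⟨h2, h1, h3.symm⟩

theorem W_anti (ω ω' : Fin n → R) (η : Fk n R) : W ω (W ω' η) = -W ω' (W ω η) := by
  have := W_W (ω + ω') η
  rw [W_add, W_add, map_add, map_add, W_W, W_W, zero_add, add_zero] at this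
  exact eq_neg_of_add_eq_zero_left this

theorem car (u ω : Fin n → R) (η : Fk n R) :
    Cn u (W ω η) + W ω (Cn u η) = (u ⬝ᵥ ω) • η := by
  funext S
  have e1 : Cn u (W ω η) S = ∑ a ∈ Sᶜ, (u a * ω a * η S + ∑ b ∈ S,
      u a * ω b * ee R a b * sg R a S * sg R b S * η (insert a (S.erase b))) := by
    rw [Cn_apply]
    refine sum_congr rfl fun a ha => ?_
    have ha' := mem_compl.1 ha
    rw [W_apply, sum_insert ha', erase_insert ha', sg_insert ha', ee_self, mul_add, mul_sum]
    congr 1
    · linear_combination (u a * ω a * η S) * sg_sq (R := R) a S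
    · refine sum_congr rfl fun b hb => ?_
      rw [sg_insert ha', erase_insert_of_ne (fun e : a = b => ha' (e ▸ hb))]
      ring
  have e2 : W ω (Cn u η) S = ∑ b ∈ S, (u b * ω b * η S + ∑ a ∈ Sᶜ,
      u a * ω b * ee R b a * sg R a S * sg R b S * η (insert a (S.erase b))) := by
    rw [W_apply]
    refine sum_congr rfl fun b hb => ?_
    rw [Cn_apply, compl_erase, sum_insert (by simpa using hb), insert_erase hb, sg_erase hb,
      ee_self, mul_add, mul_sum]
    congr 1
    · linear_combination (u b * ω b * η S) * sg_sq (R := R) b S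
    · refine sum_congr rfl fun a _ => ?_
      rw [sg_erase hb]
      ring
  rw [Pi.add_apply, e1, e2, sum_add_distrib, sum_add_distrib, sum_comm (s := S), add_add_add_comm,
    ← sum_add_distrib (s := Sᶜ), sum_eq_zero (s := Sᶜ) (f := fun a => _ + _) fun a ha => ?_,
    add_zero, ← sum_mul, ← sum_mul, ← add_mul, add_comm, sum_add_sum_compl]
  · rfl
  · rw [← sum_add_distrib]
    refine sum_eq_zero fun b hb => ?_
    linear_combination (u a * ω b * sg R a S * sg R b S * η (insert a (S.erase b))) *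
      ee_add (R := R) (fun e : a = b => mem_compl.1 ha (e ▸ hb))

theorem W_Cn (u ω : Fin n → R) (η : Fk n R) : W ω (Cn u η) = (u ⬝ᵥ ω) • η - Cn u (W ω η) :=
  eq_sub_of_add_eq' (car u ω η)

theorem Cn_W (u ω : Fin n → R) (η : Fk n R) : Cn u (W ω η) = (u ⬝ᵥ ω) • η - W ω (Cn u η) :=
  eq_sub_of_add_eq (car u ω η)

variable {p : ℤ} {η η' : Fk n R}

theorem Deg.zero : Deg p (0 : Fk n R) := fun _ _ => rfl

theorem Deg.add (h : Deg p η) (h' : Deg p η') : Deg p (η + η') := fun S hS => by
  rw [Pi.add_apply, h S hS, h' S hS, add_zero]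

theorem Deg.smul (h : Deg p η) (c : R) : Deg p (c • η) := fun S hS => by
  rw [Pi.smul_apply, h S hS, smul_zero]

theorem Deg.neg (h : Deg p η) : Deg p (-η) := fun S hS => by rw [Pi.neg_apply, h S hS, neg_zero]

theorem Deg.sub (h : Deg p η) (h' : Deg p η') : Deg p (η - η') :=
  sub_eq_add_neg η η' ▸ h.add h'.neg

theorem Deg.map (h : Deg p η) (φ : R →+* R') : Deg p (φ ∘ η) := fun S hS => by
  rw [Function.comp_apply, h S hS, map_zero]

theorem Deg.eq_zero (h : Deg p η) (hp : p < 0) : η = 0 := funext fun S => h S (by omega)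

theorem Deg.W (h : Deg p η) (ω : Fin n → R) : Deg (p + 1) (W ω η) := fun S hS =>
  sum_eq_zero fun a ha => by
    have := card_erase_add_one ha
    rw [h _ (by omega), mul_zero]

theorem Deg.Cn (h : Deg p η) (u : Fin n → R) : Deg (p - 1) (Cn u η) := fun S hS =>
  sum_eq_zero fun a ha => by
    have := card_insert_of_notMem (mem_compl.1 ha)
    rw [h _ (by omega), mul_zero]

theorem Deg.WW (h : Deg p η) (ω : ℕ → Fin n → R) (k : ℕ) : Deg (p + k) (WW ω k η) := by
  induction k generalizing p η with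
  | zero => simpa [WW_zero] using h
  | succ k ih =>
    have := ih (h.W (ω k))
    rwa [show p + 1 + k = p + (k + 1 : ℕ) by push_cast; ring] at this

theorem W_WW (v : Fin n → R) (ω : ℕ → Fin n → R) (k : ℕ) (η : Fk n R) :
    W v (WW ω k η) = (-1 : R) ^ k • WW ω k (W v η) := by
  induction k generalizing η with
  | zero => simp [WW_zero]
  | succ k ih => rw [WW_succ, WW_succ, ih, W_anti, map_neg, pow_succ, mul_neg_one, neg_smul, smul_neg]

theorem WW_W {ω : ℕ → Fin n → R} {k i : ℕ} (h : i < k) (η : Fk n R) : WW ω k (W (ω i) η) = 0 := by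
  induction k generalizing η with
  | zero => omega
  | succ k ih =>
    rw [WW_succ]
    rcases (Nat.lt_succ_iff.1 h).eq_or_lt with rfl | h
    · rw [W_W, map_zero]
    · rw [W_anti, map_neg, ih h, neg_zero]

theorem Sp.mono {a : R} {ω : ℕ → Fin n → R} {k : ℕ} (h : Sp a ω (k + 1)) : Sp a ω k := by
  obtain ⟨u, hu⟩ := h
  exact ⟨u, fun i hi j hj => hu i (by omega) j (by omega)⟩

theorem Sp.map {a : R} {ω : ℕ → Fin n → R} {k : ℕ} (h : Sp a ω k) (φ : R →+* R') :
    Sp (φ a) (fun i => φ ∘ ω i) k := by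
  obtain ⟨u, hu⟩ := h
  refine ⟨fun i => φ ∘ u i, fun i hi j hj => ?_⟩
  rw [← RingHom.map_dotProduct, hu i hi j hj, apply_ite φ, map_zero]

/-- Division, locally. -/
theorem Sp.div {a : R} {ω : ℕ → Fin n → R} {k : ℕ} (h : Sp a ω k) {G : Fk n R}
    (hG : ∀ i < k, W (ω i) G = 0) (hd : Deg (p + k) G) :
    ∃ η, Deg p η ∧ a ^ k • G = WW ω k η := by
  induction k generalizing G with
  | zero => exact ⟨G, by simpa using hd, by rw [pow_zero, one_smul, WW_zero]⟩
  | succ k ih =>
    obtain ⟨u, hu⟩ := id h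
    obtain ⟨η, h1, h2⟩ := ih h.mono (G := Cn (u k) G) (fun i hi => by
      rw [W_Cn, hu k (by omega) i (by omega), if_neg (by omega), hG i (by omega), map_zero,
        zero_smul, sub_zero]) (by
      have := hd.Cn (u k)
      rwa [show p + (k + 1 : ℕ) - 1 = p + k by push_cast; ring] at this)
    refine ⟨(-1 : R) ^ k • η, h1.smul _, ?_⟩
    have h3 := W_Cn (u k) (ω k) G
    rw [hu k (by omega) k (by omega), if_pos rfl, hG k (by omega), map_zero, sub_zero] at h3
    rw [pow_succ, mul_smul, ← h3, ← map_smul, h2, W_WW, map_smul, WW_succ]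

/-- The lemma of de Rham and Saito, locally. -/
theorem Sp.loc {a : R} {ω : ℕ → Fin n → R} {k : ℕ} (h : Sp a ω k) (hd : Deg p η)
    (h0 : WW ω k η = 0) : ∃ β : ℕ → Fk n R, (∀ i, Deg (p - 1) (β i)) ∧
      a ^ k • η = ∑ i ∈ range k, W (ω i) (β i) := by
  induction k generalizing p η with
  | zero => exact ⟨0, fun _ => Deg.zero, by simpa [WW_zero] using h0⟩
  | succ k ih =>
    obtain ⟨u, hu⟩ := id h
    obtain ⟨β, h1, h2⟩ := ih h.mono (hd.W (ω k)) h0
    refine ⟨fun i => if i = k then a ^ k • Cn (u k) η else -Cn (u k) (β i), fun i => ?_, ?_⟩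
    · beta_reduce
      split_ifs
      · exact (hd.Cn _).smul _
      · simpa using ((h1 i).Cn (u k)).neg
    · have h3 := congrArg (Cn (u k)) h2
      rw [map_smul, Cn_W, hu k (by omega) k (by omega), if_pos rfl, smul_sub, ← mul_smul,
        ← pow_succ, sub_eq_iff_eq_add, map_sum] at h3
      rw [h3, sum_range_succ]
      beta_reduce
      rw [if_pos rfl, map_smul]
      congr 1
      refine sum_congr rfl fun i hi => ?_
      have := mem_range.1 hi
      rw [if_neg (by omega), Cn_W, hu k (by omega) i (by omega), if_neg (by omega), zero_smul,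
        zero_sub, map_neg]

end Pool.Agent.Lib.MP_41050a_ag.CI
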