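import Pool.Agent.Lib.MP_41050a_ag.CI.Cnt
import Pool.Agent.Lib.MP_41050a_ag.DJ.F

/-! The dimension of the space of lines on a complete intersection. -/

namespace Pool.Agent.Lib.MP_41050a_ag.CI

open Polynomial NK Module
open DJ hiding core line chart main neck_le

set_option linter.unusedSectionVars false

noncomputable section

variable {k : Type} [Field k] [IsAlgClosed k] [CharZero k] {N n : ℕ}
  {Λ : Type} [Field Λ] [Algebra k Λ] {f : Fin n → Pk k N} {d : Fin n → ℕ}

/-- The space of pairs of vectors spanning a subspace of the cone. -/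
theorem line (hf : ∀ i, (f i).IsHomogeneous (d i)) (hd : ∀ i, 1 ≤ d i) (ns : NSc f) {m : ℤ}
    (m1 : (N : ℤ) + 1 - n ≤ m) (m2 : 2 * (N : ℤ) + 1 - n - (∑ i, d i : ℕ) ≤ m) {p q : V Λ N}
    (h0 : p ≠ 0) (h : ∀ i, MvPolynomial.aeval (ln p q) (f i) = 0) {c : ℕ}
    (hc : Ind k (IntermediateField.adjoin k (Set.range p ∪ Set.range q) : Set Λ) c) :
    (c : ℤ) ≤ m + 1 := by
  by_contra hlt
  obtain ⟨t, ht, ht'⟩ := hc
  obtain ⟨K, _, _, _, _, a, ha⟩ := exists_ext k Λ 4
  let φ := IsScalarTower.toAlgHom k Λ K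
  have inj : Function.Injective (MvPolynomial.aeval a : MvPolynomial (Fin 4) Λ →ₐ[Λ] K) := ha
  let y : V K N := fun i => a 0 * φ (p i) + a 1 * φ (q i)
  let u : V K N := fun i => a 2 * φ (p i) + a 3 * φ (q i)
  let w : V (MvPolynomial (Fin 4) Λ) N := fun i =>
    MvPolynomial.X 0 * MvPolynomial.C (p i) + MvPolynomial.X 1 * MvPolynomial.C (q i)
  have hw : (MvPolynomial.aeval a).restrictScalars k ∘ w = y := funext fun i => by simp [w, y, φ]
  obtain ⟨i₀, hy⟩ : ∃ i, y i ≠ 0 := by
    by_contra hy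
    simp only [not_exists, not_not] at hy
    have h1 : ∀ i, w i = 0 := fun i => inj ((congrFun hw i).trans ((hy i).trans (map_zero _).symm))
    refine h0 (funext fun i => ?_)
    simpa [w] using congrArg (MvPolynomial.eval ![1, 0, 0, 0]) (h1 i)
  have hΔ : a 0 * a 3 - a 1 * a 2 ≠ 0 := fun e => by
    have h1 : (MvPolynomial.X 0 * MvPolynomial.X 3 - MvPolynomial.X 1 * MvPolynomial.X 2 :
        MvPolynomial (Fin 4) Λ) = 0 := inj (by simpa using e)
    simpa using congrArg (MvPolynomial.eval ![1, 0, 0, 1]) h1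
  have ha0 : a 0 ≠ 0 := ha.ne_zero 0
  let l := u i₀ / y i₀
  let v : V K N := fun i => u i - l * y i
  have hf0 : ∀ j, MvPolynomial.aeval y (f j) = 0 := fun j => by
    have h1 := congrArg (eval 1) (ln_scale (hf j) (ln_map φ (h j)) ha0 (a 1))
    simpa [ln_eval] using h1
  have h1 := core hf hd ns (y := y) (v := v) hy (by simp [v, l, hy]) hf0 (fun Φ hΦ => by
    have h2 : MvPolynomial.aeval w Φ = 0 := inj (by
      rw [map_zero]
      exact (map_aev ((MvPolynomial.aeval a).restrictScalars k) w Φ).trans (hw ▸ hΦ))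
    have h3 := map_aev ((MvPolynomial.aeval (![C (C (a 0)) * X + C (X * C (a 2 - l * a 0)),
      C (C (a 1)) * X + C (X * C (a 3 - l * a 1)), 0, 0] : Fin 4 → K[X][X]) :
        MvPolynomial (Fin 4) Λ →ₐ[Λ] K[X][X]).restrictScalars k) w Φ
    rw [h2, map_zero] at h3
    rw [h3]
    congr 2
    funext i
    simp [w, y, v, u, φ, Polynomial.algebraMap_apply]
    ring) m1 m2
  let S : Set K := Set.range y ∪ Set.range v ∪ ({l} ∪ Set.range a)
  have h2 : Cod ⊤ (Ann k S) (m + (1 + 4)) := by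
    have h3 := cod_sum (U := ⊤) Finset.univ (fun j => Ann k {a j}) (fun _ => 1)
      fun j _ => cod_one _ _
    rw [ann_union, ann_union {l}]
    refine h1.step ((cod_one ⊤ l).step (h3.weak le_rfl ?_) le_top) le_top
    rintro D ⟨-, hD⟩ _ ⟨j, rfl⟩
    exact (Submodule.mem_iInf _).1 ((Submodule.mem_iInf _).1 hD j) (Finset.mem_univ _) _ rfl
  have sa : ∀ j, a j ∈ IntermediateField.adjoin k S := fun j =>
    IntermediateField.subset_adjoin k S (Or.inr (Or.inr ⟨j, rfl⟩))
  have sy : ∀ i, y i ∈ IntermediateField.adjoin k S := fun i =>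
    IntermediateField.subset_adjoin k S (Or.inl (Or.inl ⟨i, rfl⟩))
  have su : ∀ i, u i ∈ IntermediateField.adjoin k S := fun i => by
    rw [show u i = v i + l * y i from (sub_add_cancel _ _).symm]
    exact add_mem (IntermediateField.subset_adjoin k S (Or.inl (Or.inr ⟨i, rfl⟩)))
      (mul_mem (IntermediateField.subset_adjoin k S (Or.inr (Or.inl rfl))) (sy i))
  have h4 : IntermediateField.adjoin k (Set.range p ∪ Set.range q) ≤
      (IntermediateField.adjoin k S).comap φ := IntermediateField.adjoin_le_iff.2 (by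
    rintro _ (⟨i, rfl⟩ | ⟨i, rfl⟩)
    · change φ (p i) ∈ IntermediateField.adjoin k S
      rw [show φ (p i) = (a 3 * y i - a 1 * u i) / (a 0 * a 3 - a 1 * a 2) by
        rw [eq_div_iff hΔ]
        ring]
      exact div_mem (sub_mem (mul_mem (sa _) (sy _)) (mul_mem (sa _) (su _)))
        (sub_mem (mul_mem (sa _) (sa _)) (mul_mem (sa _) (sa _)))
    · change φ (q i) ∈ IntermediateField.adjoin k S
      rw [show φ (q i) = (a 0 * u i - a 2 * y i) / (a 0 * a 3 - a 1 * a 2) by
        rw [eq_div_iff hΔ]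
        ring]
      exact div_mem (sub_mem (mul_mem (sa _) (su _)) (mul_mem (sa _) (sy _)))
        (sub_mem (mul_mem (sa _) (sa _)) (mul_mem (sa _) (sa _))))
  refine (ind_sum ha ht (S := IntermediateField.adjoin k S) sa fun l => h4 (ht' l)).not_cod le_rfl
    (h2.mono ?_)
  push_cast
  omega

theorem neck_le (hf : ∀ i, (f i).IsHomogeneous (d i)) (hd : ∀ i, 1 ≤ d i) (ns : NSc f)
    {m : ℤ} (m1 : (N : ℤ) + 1 - n ≤ m) (m2 : 2 * (N : ℤ) + 1 - n - (∑ i, d i : ℕ) ≤ m)
    {p q : V Λ N} (hp : p ≠ 0) (hq : q ≠ 0) (h : ∀ i, MvPolynomial.aeval (ln p q) (f i) = 0)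
    {c : ℕ} (hc : Ind k (rat p ∪ rat q) c) : (c : ℤ) + 1 ≤ m := by
  obtain ⟨t, ht, ht'⟩ := hc
  obtain ⟨K, _, _, _, _, a, ha⟩ := exists_ext k Λ 2
  let φ := IsScalarTower.toAlgHom k Λ K
  obtain ⟨i, hi⟩ := Function.ne_iff.1 hp
  obtain ⟨j, hj⟩ := Function.ne_iff.1 hq
  have hi' : φ (p i) ≠ 0 := (map_ne_zero φ).2 hi
  have hj' : φ (q j) ≠ 0 := (map_ne_zero φ).2 hj
  have s0 := div_ne_zero (ha.ne_zero 0) hi'
  have s1 := div_ne_zero (ha.ne_zero 1) hj'
  set S := Set.range ((a 0 / φ (p i)) • φ ∘ p) ∪ Set.range ((a 1 / φ (q j)) • φ ∘ q)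
  have sp : ∀ b, a 0 / φ (p i) * φ (p b) ∈ IntermediateField.adjoin k S := fun b =>
    IntermediateField.subset_adjoin k S (Or.inl ⟨b, rfl⟩)
  have sq : ∀ b, a 1 / φ (q j) * φ (q b) ∈ IntermediateField.adjoin k S := fun b =>
    IntermediateField.subset_adjoin k S (Or.inr ⟨b, rfl⟩)
  have := line hf hd ns m1 m2 (fun e => mul_ne_zero s0 hi' (congrFun e i))
    (fun l => ln_scale (hf l) (ln_map φ (h l)) s0 (a 1 / φ (q j)))
    (ind_sum ha ht (S := IntermediateField.adjoin k S)
      (Fin.forall_fin_two.2 ⟨by simpa [hi'] using sp i, by simpa [hj'] using sq j⟩) fun l => by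
      obtain ⟨b, b', e⟩ | ⟨b, b', e⟩ := ht' l
      · have := div_mem (sp b) (sp b')
        rwa [mul_div_mul_left _ _ s0, ← map_div₀, ← e] at this
      · have := div_mem (sq b) (sq b')
        rwa [mul_div_mul_left _ _ s1, ← map_div₀, ← e] at this)
  push_cast at this
  omega

theorem chart (hf : ∀ i, (f i).IsHomogeneous (d i)) (hd : ∀ i, 1 ≤ d i) (ns : NSc f) {m : ℤ}
    (m1 : (N : ℤ) + 1 - n ≤ m) (m2 : 2 * (N : ℤ) + 1 - n - (∑ i, d i : ℕ) ≤ m) {p q : V Λ N}
    (h : ∀ i, MvPolynomial.aeval (ln p q) (f i) = 0)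
    {i j : Fin (N + 1)} (h1 : p i = 1) (h2 : p j = 0) (h3 : q i = 0) (h4 : q j = 1) {c : ℕ}
    (hc : Ind k (IntermediateField.adjoin k (Set.range p ∪ Set.range q) : Set Λ) c) :
    (c : ℤ) + 3 ≤ m := by
  obtain ⟨t, ht, ht'⟩ := hc
  obtain ⟨K, _, _, _, _, a, ha⟩ := exists_ext k Λ 4
  let φ := IsScalarTower.toAlgHom k Λ K
  have inj : Function.Injective (MvPolynomial.aeval a : MvPolynomial (Fin 4) Λ →ₐ[Λ] K) := ha
  let y : V K N := fun i => a 0 * φ (p i) + a 1 * φ (q i)
  let u : V K N := fun i => a 2 * φ (p i) + a 3 * φ (q i)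
  have hΔ : a 0 * a 3 - a 1 * a 2 ≠ 0 := fun e => by
    have h1 : (MvPolynomial.X 0 * MvPolynomial.X 3 - MvPolynomial.X 1 * MvPolynomial.X 2 :
        MvPolynomial (Fin 4) Λ) = 0 := inj (by simpa using e)
    simpa using congrArg (MvPolynomial.eval ![1, 0, 0, 1]) h1
  have h5 : ∀ b, MvPolynomial.aeval (ln y u) (f b) = 0 := fun b => by
    let ψ := IsScalarTower.toAlgHom k K[X] (RatFunc K)
    have hψ : Function.Injective ψ := IsFractionRing.injective K[X] (RatFunc K)
    have h6 : ψ (C (a 0) + X * C (a 2)) ≠ 0 := (map_ne_zero_iff ψ hψ).2 fun e =>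
      ha.ne_zero 0 (by simpa using congrArg (eval 0) e)
    have h7 := congrArg (eval 1) (ln_scale (hf b) (ln_map
      (ψ.comp ((IsScalarTower.toAlgHom k K K[X]).comp φ)) (h b)) h6 (ψ (C (a 1) + X * C (a 3))))
    rw [ln_eval, eval_zero] at h7
    refine hψ ((map_aev ψ _ _).trans (Eq.trans ?_ (h7.trans (map_zero ψ).symm)))
    congr 2
    funext l
    simp only [Function.comp, ln, y, u, Pi.smul_apply, smul_eq_mul, AlgHom.comp_apply,
      IsScalarTower.coe_toAlgHom' k K K[X], algebraMap_eq, one_mul, ← map_mul ψ, ← map_add ψ, C_add,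
      C_mul]
    congr 1
    ring
  set S := Set.range y ∪ Set.range u
  have sy : ∀ i, y i ∈ IntermediateField.adjoin k S := fun i =>
    IntermediateField.subset_adjoin k S (Or.inl ⟨i, rfl⟩)
  have su : ∀ i, u i ∈ IntermediateField.adjoin k S := fun i =>
    IntermediateField.subset_adjoin k S (Or.inr ⟨i, rfl⟩)
  have sa : ∀ j, a j ∈ IntermediateField.adjoin k S := fun l => by
    fin_cases l
    · simpa [y, h1, h3] using sy i
    · simpa [y, h2, h4] using sy j
    · simpa [u, h1, h3] using su i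
    · simpa [u, h2, h4] using su j
  have h4 : IntermediateField.adjoin k (Set.range p ∪ Set.range q) ≤
      (IntermediateField.adjoin k S).comap φ := IntermediateField.adjoin_le_iff.2 (by
    rintro _ (⟨i, rfl⟩ | ⟨i, rfl⟩)
    · change φ (p i) ∈ IntermediateField.adjoin k S
      rw [show φ (p i) = (a 3 * y i - a 1 * u i) / (a 0 * a 3 - a 1 * a 2) by
        rw [eq_div_iff hΔ]
        ring]
      exact div_mem (sub_mem (mul_mem (sa _) (sy _)) (mul_mem (sa _) (su _)))
        (sub_mem (mul_mem (sa _) (sa _)) (mul_mem (sa _) (sa _)))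
    · change φ (q i) ∈ IntermediateField.adjoin k S
      rw [show φ (q i) = (a 0 * u i - a 2 * y i) / (a 0 * a 3 - a 1 * a 2) by
        rw [eq_div_iff hΔ]
        ring]
      exact div_mem (sub_mem (mul_mem (sa _) (su _)) (mul_mem (sa _) (sy _)))
        (sub_mem (mul_mem (sa _) (sa _)) (mul_mem (sa _) (sa _))))
  have := line hf hd ns m1 m2 (fun e => ha.ne_zero 0 (by simpa [y, h1, h3] using congrFun e i)) h5
    (ind_sum ha ht (S := IntermediateField.adjoin k S) sa fun l => h4 (ht' l))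
  push_cast at this
  omega

theorem main (hf : ∀ i, (f i).IsHomogeneous (d i)) (hd : ∀ i, 1 ≤ d i) (ns : NSc f)
    {a b : Fin (N + 1)} {P : Ideal (MvPolynomial (Fin 2 × Fin (N + 1)) k)}
    (hP : P ∈ (Ideal.span ((Set.range fun j : (l : Fin n) × Fin (d l + 1) => (MvPolynomial.aeval
      (fun i => C (MvPolynomial.X (0, i)) + X * C (MvPolynomial.X (1, i)) :
        _ → (MvPolynomial (Fin 2 × Fin (N + 1)) k)[X]) (f j.1)).coeff j.2) ∪
      {MvPolynomial.X (0, a) - 1, MvPolynomial.X (0, b), MvPolynomial.X (1, a),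
        MvPolynomial.X (1, b) - 1})).minimalPrimes) :
    ∃ s : ℕ, ringKrullDim (MvPolynomial (Fin 2 × Fin (N + 1)) k ⧸ P) = s ∧
      2 * N ≤ s + ∑ l, d l + n + 2 ∧ s + min (∑ l, d l) N + n + 2 ≤ 2 * N := by
  have := hP.isPrime
  obtain ⟨s, t, ht, h1, h2⟩ := dim_trdeg k (MvPolynomial (Fin 2 × Fin (N + 1)) k ⧸ P)
  set w : Fin (N + 1) → (MvPolynomial (Fin 2 × Fin (N + 1)) k)[X] :=
    fun i => C (MvPolynomial.X (0, i)) + X * C (MvPolynomial.X (1, i)) with hw
  refine ⟨s, h1, ?_, ?_⟩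
  · have h3 := Pool.Agent.HZ.dm_krull (P := ⊥) (Q := P) Ideal.isPrime_bot
      (Sum.elim (fun j : (l : Fin n) × Fin (d l + 1) => (MvPolynomial.aeval w (f j.1)).coeff j.2)
        ![MvPolynomial.X (0, a) - 1, MvPolynomial.X (0, b), MvPolynomial.X (1, a),
          MvPolynomial.X (1, b) - 1] ∘ (Fintype.equivFin _).symm) (by
      rw [bot_sup_eq, EquivLike.range_comp, Set.Sum.elim_range]
      simpa only [Matrix.range_cons, Matrix.range_empty, Set.singleton_union, Set.union_empty]
        using hP)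
    rw [Pool.Agent.HZ.dm_bot, show Pool.Agent.HZ.dm P = s from h2] at h3
    simp only [Fintype.card_prod, Fintype.card_fin, Fintype.card_sum, Fintype.card_sigma,
      Finset.sum_add_distrib, Finset.sum_const, Finset.card_univ, smul_eq_mul] at h3
    omega
  · let A := MvPolynomial (Fin 2 × Fin (N + 1)) k ⧸ P
    let ψ := IsScalarTower.toAlgHom k A (FractionRing A)
    let φ := ψ.comp (Ideal.Quotient.mkₐ k P)
    have h0 : ∀ g ∈ P, φ g = 0 := fun g hg =>
      (congrArg ψ (Ideal.Quotient.eq_zero_iff_mem.2 hg)).trans (map_zero ψ)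
    have h4 := fun g hg => h0 g (hP.le (Ideal.subset_span hg))
    have h5 : ∀ l, MvPolynomial.aeval (ln (fun i => φ (MvPolynomial.X (0, i)))
        fun i => φ (MvPolynomial.X (1, i))) (f l) = 0 := fun l => by
      have e := map_aev_poly φ w (f l)
      rw [show (fun i => (w i).map (φ : _ →+* _)) = ln (fun i => φ (MvPolynomial.X (0, i)))
        fun i => φ (MvPolynomial.X (1, i)) from funext fun i => by simp [hw, ln]] at e
      rw [← e]
      ext j
      rw [coeff_map, coeff_zero]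
      by_cases hj : j < d l + 1
      · exact h4 _ (Or.inl ⟨⟨l, j, hj⟩, rfl⟩)
      · rw [coeff_eq_zero_of_natDegree_lt (((coeff_aev (hf l) (e := 1) fun i => by
          rw [hw]
          compute_degree).1).trans_lt (by omega)), map_zero]
    have h6 := chart hf hd ns (m := 2 * N + 1 - n - (min (∑ l, d l) N : ℕ)) (by omega) (by omega)
      h5 (i := a) (j := b)
      (by simpa [sub_eq_zero] using h4 _ (Or.inr (Or.inl rfl)))
      (h4 _ (Or.inr (Or.inr (Or.inl rfl)))) (h4 _ (Or.inr (Or.inr (Or.inr (Or.inl rfl)))))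
      (by simpa [sub_eq_zero] using h4 _ (Or.inr (Or.inr (Or.inr (Or.inr rfl)))))
      ⟨ψ ∘ t, ht.map' (IsFractionRing.injective A _), fun l => by
        obtain ⟨g, hg⟩ := Ideal.Quotient.mk_surjective (t l)
        rw [Function.comp_apply, ← hg]
        change φ g ∈ _
        clear hg
        induction g using MvPolynomial.induction_on with
        | C c => exact (φ.commutes c).symm ▸ IntermediateField.algebraMap_mem _ c
        | add p q hp hq => rw [map_add]; exact add_mem hp hq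
        | mul_X p x hp =>
          rw [map_mul]
          refine mul_mem hp (IntermediateField.subset_adjoin _ _ ?_)
          obtain ⟨r, i⟩ := x
          fin_cases r
          · exact Or.inl ⟨i, rfl⟩
          · exact Or.inr ⟨i, rfl⟩⟩
    omega

end

end Pool.Agent.Lib.MP_41050a_ag.CI
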