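import Pool.Agent.Results.MP_41050a_ag.LinesExpected
import Pool.Agent.Lib.MP_41050a_ag.CI.Brg

/-! The earlier statements for hypersurfaces are the case of codimension one. -/

namespace Pool.Agent.Lib.MP_41050a_ag.CI

open MvPolynomial NK

variable {k : Type} [Field k] {N : ℕ}

theorem one_ind {f : Pk k N}
    (hs : ∀ x : Fin (N + 1) → k, aeval x f = 0 → (∀ i, aeval x (pderiv i f) = 0) → x = 0)
    (x : Fin (N + 1) → k) (hx : x ≠ 0) (h : ∀ _ : Fin 1, aeval x f = 0) :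
    LinearIndependent k fun (_ : Fin 1) (i : Fin (N + 1)) => aeval x (pderiv i f) :=
  linearIndependent_unique_iff.2 fun e => hx (hs x (h 0) (congrFun e))

theorem oldLines (k : Type) [Field k] [IsAlgClosed k]
    [CharZero k] (N d : ℕ) (f : MvPolynomial (Fin (N + 1)) k) (hd : 1 ≤ d)
    (hf : f.IsHomogeneous d)
    (hs : ∀ x : Fin (N + 1) → k, aeval x f = 0 → (∀ i, aeval x (pderiv i f) = 0) → x = 0)
    (a b : Fin (N + 1)) (P : Ideal (MvPolynomial (Fin 2 × Fin (N + 1)) k))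
    (hP : P ∈ (Ideal.span ((Set.range fun j : Fin (d + 1) => (aeval
      (fun i => Polynomial.C (X (0, i)) + Polynomial.X * Polynomial.C (X (1, i)) :
        Fin (N + 1) → Polynomial (MvPolynomial (Fin 2 × Fin (N + 1)) k)) f).coeff j) ∪
      {X (0, a) - 1, X (0, b), X (1, a), X (1, b) - 1})).minimalPrimes) :
    ∃ s : ℕ, ringKrullDim (MvPolynomial (Fin 2 × Fin (N + 1)) k ⧸ P) = s ∧ 2 * N ≤ s + d + 3 ∧
      s + min d N + 3 ≤ 2 * N := by
  obtain ⟨s, h1, h2, h3⟩ := Results.MP_41050a_ag.LinesExpected.result k N 1 (fun _ => d)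
    (fun _ => f) (fun _ => hd) (fun _ => hf) (one_ind hs) a b P (by
      refine (congrArg (fun S => P ∈ (Ideal.span (S ∪ _)).minimalPrimes) (Set.ext fun _ => ?_)).mp hP
      exact ⟨fun ⟨j, h⟩ => ⟨⟨0, j⟩, h⟩, fun ⟨j, h⟩ => ⟨j.2, h⟩⟩)
  simp only [Fin.sum_univ_one] at h2 h3
  exact ⟨s, h1, h2, h3⟩

theorem oldBreak (k : Type) [Field k]
    [IsAlgClosed k] [CharZero k] (N d : ℕ) (h2 : 2 ≤ d) (h3 : 3 * d ≤ 2 * N + 3) (f : Pk k N)
    (hf : f.IsHomogeneous d)
    (hs : ∀ x : Fin (N + 1) → k, MvPolynomial.aeval x f = 0 →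
      (∀ i, MvPolynomial.aeval x (MvPolynomial.pderiv i f) = 0) → x = 0)
    (e : ℕ) (he : N + 1 ≤ e * (N + 1 - d))
    (P : Ideal (MvPolynomial (Fin (N + 1) × Fin (e + 1)) k))
    (hP : P ∈ (eqs (Ideal.span {f}) e).minimalPrimes) (hg : GenFree (Ideal.span {f}) e P) :
    BreaksN (Ideal.span {f}) e P := by
  have hp := (DJ.brg_cone hf (by omega) (by omega) (DJ.ns_of hf (by omega) hs)).prime
  rw [← Set.range_const (ι := Fin 1)] at hP hg hp ⊢
  exact third (d := fun _ => d) (fun _ => hf) (fun _ => by omega) (nsc_of (one_ind hs)) hp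
    (by simpa using h3) (by simpa using he) hP hg

end Pool.Agent.Lib.MP_41050a_ag.CI
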