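import Pool.Agent.Lib.MP_41050a_ag.CI.Fock

/-! The lemma of de Rham and Saito up to powers of one element; the Frobenius argument. -/

namespace Pool.Agent.Lib.MP_41050a_ag.CI

open Finset Polynomial

variable {n : ℕ}

/-- All powers of `z 0, z 1, …` form a regular sequence of length `d` up to the factor `c`. -/
def AR : (d : ℕ) → (R : Type) → [CommRing R] → R → (ℕ → R) → Prop
  | 0, _, _, _, _ => True
  | d + 1, R, _, c, z => ∀ t : ℕ, (∀ x, z 0 ^ t * x = 0 → c * x = 0) ∧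
      AR d (R ⧸ Ideal.span {z 0 ^ t}) (Ideal.Quotient.mk _ c) fun j => Ideal.Quotient.mk _ (z (j + 1))

section

variable {R : Type} [CommRing R] {b : R} {p : ℤ}

theorem AR.step {d : ℕ} {c : R} {z : ℕ → R} (h : AR (d + 1) R c z) {t : ℕ} (hb : z 0 ^ t = b) :
    (∀ x, b * x = 0 → c * x = 0) ∧ AR d (R ⧸ Ideal.span {b}) (Ideal.Quotient.mk _ c)
      fun j => Ideal.Quotient.mk _ (z (j + 1)) := by
  subst hb
  exact h t

theorem lift_deg {η : Fk n (R ⧸ Ideal.span {b})} (h : Deg p η) :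
    ∃ η' : Fk n R, Deg p η' ∧ Ideal.Quotient.mk _ ∘ η' = η := by
  have : ∀ S, ∃ y : R, ((S.card : ℤ) ≠ p → y = 0) ∧ Ideal.Quotient.mk _ y = η S := fun S => by
    by_cases hS : (S.card : ℤ) = p
    · obtain ⟨y, hy⟩ := Ideal.Quotient.mk_surjective (η S)
      exact ⟨y, fun e => absurd hS e, hy⟩
    · exact ⟨0, fun _ => rfl, by rw [h S hS, map_zero]⟩
  choose y h1 h2 using this
  exact ⟨y, h1, funext h2⟩

theorem ker_deg {η : Fk n R} (h : Deg p η) (h0 : Ideal.Quotient.mk (Ideal.span {b}) ∘ η = 0) :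
    ∃ ζ : Fk n R, Deg p ζ ∧ η = b • ζ := by
  have : ∀ S, ∃ y : R, ((S.card : ℤ) ≠ p → y = 0) ∧ η S = b * y := fun S => by
    by_cases hS : (S.card : ℤ) = p
    · obtain ⟨y, hy⟩ := Ideal.mem_span_singleton.1
        (Ideal.Quotient.eq_zero_iff_mem.1 (congrFun h0 S))
      exact ⟨y, fun e => absurd hS e, hy⟩
    · exact ⟨0, fun _ => rfl, by rw [h S hS, mul_zero]⟩
  choose y h1 h2 using this
  exact ⟨y, h1, funext h2⟩

theorem Deg.sum {s : Finset ℕ} {β : ℕ → Fk n R} (h : ∀ i, Deg p (β i)) : Deg p (∑ i ∈ s, β i) :=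
  fun S hS => by rw [Finset.sum_apply, sum_eq_zero fun i _ => h i S hS]

theorem map_comb {R' : Type} [CommRing R'] (φ : R →+* R') (ω : ℕ → Fin n → R) (β : ℕ → Fk n R)
    (k : ℕ) : φ ∘ ∑ i ∈ range k, W (ω i) (β i) = ∑ i ∈ range k, W (φ ∘ ω i) (φ ∘ β i) :=
  funext fun S => by
    rw [Function.comp_apply, Finset.sum_apply, Finset.sum_apply, map_sum]
    exact sum_congr rfl fun i _ => congrFun (W_map φ (ω i) (β i)) S

theorem WW_comb (ω : ℕ → Fin n → R) (β : ℕ → Fk n R) (k : ℕ) :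
    WW ω k (∑ i ∈ range k, W (ω i) (β i)) = 0 := by
  rw [map_sum]
  exact sum_eq_zero fun i hi => WW_W (mem_range.1 hi) _

/-- Lifting a relation from the quotient. -/
theorem lift_comb {c : R} {ω : ℕ → Fin n → R} {k : ℕ} {η : Fk n R} (hd : Deg p η)
    {ξ : ℕ → Fk n (R ⧸ Ideal.span {b})} (h1 : ∀ i, Deg (p - 1) (ξ i))
    (h2 : Ideal.Quotient.mk (Ideal.span {b}) c • Ideal.Quotient.mk (Ideal.span {b}) ∘ η =
      ∑ i ∈ range k, W (Ideal.Quotient.mk _ ∘ ω i) (ξ i)) :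
    ∃ ζ : Fk n R, Deg p ζ ∧ WW ω k (c • η) = b • WW ω k ζ := by
  choose ξ' h3 h4 using fun i => lift_deg (h1 i)
  obtain ⟨ζ, h5, h6⟩ := ker_deg (b := b) (p := p) (η := c • η - ∑ i ∈ range k, W (ω i) (ξ' i))
    ((hd.smul c).sub (Deg.sum fun i => by simpa using (h3 i).W (ω i))) (by
      have := map_comb (Ideal.Quotient.mk (Ideal.span {b})) ω ξ' k
      simp only [h4] at this
      funext S
      rw [Function.comp_apply, Pi.sub_apply, map_sub, Pi.zero_apply, sub_eq_zero]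
      exact (congrFun h2 S).trans (congrFun this S).symm)
  refine ⟨ζ, h5, ?_⟩
  rw [← map_smul, ← h6, map_sub, WW_comb, sub_zero]

theorem mk_smul (η : Fk n R) : Ideal.Quotient.mk (Ideal.span {b}) ∘ (b • η) = 0 :=
  funext fun _ => Ideal.Quotient.eq_zero_iff_mem.2
    (Ideal.mul_mem_right _ _ (Ideal.mem_span_singleton_self b))

theorem sp_quot {z : ℕ → R} {ω : ℕ → Fin n → R} {k : ℕ} (h : ∀ j, ∃ t, Sp (z j ^ t) ω k)
    {R' : Type} [CommRing R'] (φ : R →+* R') (j : ℕ) :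
    ∃ t, Sp (φ (z j) ^ t) (fun i => φ ∘ ω i) k := by
  obtain ⟨t, ht⟩ := h j
  exact ⟨t, map_pow φ _ _ ▸ ht.map φ⟩

end

theorem saito (d k : ℕ) : ∃ E : ℕ, ∀ (R : Type) [CommRing R] (c : R) (z : ℕ → R)
    (ω : ℕ → Fin n → R), AR d R c z → (∀ j, ∃ t, Sp (z j ^ t) ω k) → ∀ (p : ℤ) (η : Fk n R),
      p < d → Deg p η → WW ω k η = 0 → ∃ β : ℕ → Fk n R, (∀ i, Deg (p - 1) (β i)) ∧
        c ^ E • η = ∑ i ∈ range k, W (ω i) (β i) := by
  induction d generalizing k with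
  | zero =>
    exact ⟨0, fun R _ c z ω _ _ p η hp hd _ =>
      ⟨0, fun _ => Deg.zero, by simp [hd.eq_zero (by simpa using hp)]⟩⟩
  | succ d ihd =>
    induction k with
    | zero =>
      exact ⟨0, fun R _ c z ω _ _ p η _ _ h0 =>
        ⟨0, fun _ => Deg.zero, by simpa [WW_zero] using h0⟩⟩
    | succ k ihk =>
      obtain ⟨E₁, h₁⟩ := ihd (k + 1)
      obtain ⟨E₂, h₂⟩ := ihk
      refine ⟨E₂ + 1 + E₁, fun R _ c z ω hA hS p η hp hd h0 => ?_⟩
      obtain ⟨t, ht⟩ := hS 0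
      obtain ⟨β, b1, b2⟩ := ht.loc hd h0
      obtain ⟨b, hb⟩ : ∃ b, z 0 ^ (t * (k + 1)) = b := ⟨_, rfl⟩
      rw [← pow_mul, hb] at b2
      obtain ⟨a1, a2⟩ := hA.step hb
      have b3 : b • WW ω k η = WW ω (k + 1) (β k) := by
        rw [← map_smul, b2, sum_range_succ, map_add, WW_comb, zero_add, WW_succ]
      obtain ⟨ξ, x1, x2⟩ := h₁ _ _ _ (fun i => Ideal.Quotient.mk (Ideal.span {b}) ∘ ω i) a2
        (fun j => sp_quot hS _ (j + 1)) (p - 1) (Ideal.Quotient.mk _ ∘ β k)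
        (by push_cast at hp; omega) ((b1 k).map _) (by rw [← WW_map, ← b3, mk_smul])
      rw [← map_pow] at x2
      obtain ⟨ζ, z1, z2⟩ := lift_comb (b1 k) x1 x2
      have z3 : b • WW ω k (c ^ E₁ • η - W (ω k) ζ) = 0 := by
        rw [map_sub, smul_sub, ← WW_succ, ← z2, map_smul, map_smul, smul_comm, b3, sub_self]
      obtain ⟨β', y1, y2⟩ := h₂ R c z ω hA (fun j => (hS j).imp fun _ h => h.mono) p
        (c • (c ^ E₁ • η - W (ω k) ζ)) hp
        (((hd.smul _).sub (by simpa using z1.W (ω k))).smul c)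
        (by rw [map_smul]; exact funext fun S => a1 _ (congrFun z3 S))
      refine ⟨fun i => if i = k then c ^ (E₂ + 1) • ζ else β' i, fun i => ?_, ?_⟩
      · beta_reduce
        split_ifs
        exacts [z1.smul _, y1 i]
      · rw [sum_range_succ]
        beta_reduce
        rw [if_pos rfl, sum_congr rfl fun i hi => by rw [if_neg (mem_range.1 hi).ne], ← y2,
          map_smul, ← mul_smul, ← pow_succ, smul_sub, sub_add_cancel, ← mul_smul, ← pow_add]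

theorem division (r k : ℕ) : ∃ E : ℕ, ∀ (R : Type) [CommRing R] (c : R) (z : ℕ → R)
    (ω : ℕ → Fin n → R), AR (r + 2) R c z → (∀ j, ∃ t, Sp (z j ^ t) ω k) → ∀ G : Fk n R,
      Deg (r + k) G → (∀ i < k, W (ω i) G = 0) → ∃ ζ, c ^ E • G = WW ω k ζ := by
  obtain ⟨E, hE⟩ := saito (n := n) (r + 1) k
  refine ⟨E + 1, fun R _ c z ω hA hS G hd hG => ?_⟩
  obtain ⟨t, ht⟩ := hS 0
  obtain ⟨η, b1, b2⟩ := ht.div hG hd
  obtain ⟨b, hb⟩ : ∃ b, z 0 ^ (t * k) = b := ⟨_, rfl⟩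
  rw [← pow_mul, hb] at b2
  obtain ⟨a1, a2⟩ := AR.step hA hb
  obtain ⟨ξ, x1, x2⟩ := hE _ _ _ (fun i => Ideal.Quotient.mk (Ideal.span {b}) ∘ ω i) a2
    (fun j => sp_quot hS _ (j + 1)) r (Ideal.Quotient.mk _ ∘ η)
    (by push_cast; omega) (b1.map _) (by rw [← WW_map, ← b2, mk_smul])
  rw [← map_pow] at x2
  obtain ⟨ζ, -, z2⟩ := lift_comb b1 x1 x2
  have z3 : b • (c ^ E • G - WW ω k ζ) = 0 := by
    rw [smul_sub, ← z2, map_smul, ← b2, smul_comm, sub_self]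
  refine ⟨c • ζ, ?_⟩
  rw [map_smul, pow_succ', mul_smul, ← sub_eq_zero, ← smul_sub]
  exact funext fun S => a1 _ (congrFun z3 S)

theorem WW_dvd {R : Type} [CommRing R] {a : ℕ → R} {ω : ℕ → Fin n → R} {k : ℕ}
    (h : ∀ i < k, ∀ j, a i ∣ ω i j) (η : Fk n R) :
    ∃ η', WW ω k η = (∏ i ∈ range k, a i) • η' := by
  induction k generalizing η with
  | zero => exact ⟨η, by simp [WW_zero]⟩
  | succ k ih =>
    choose v hv using h k (by omega)
    obtain ⟨η', h1⟩ := ih (fun i hi => h i (by omega)) (W v η)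
    refine ⟨η', ?_⟩
    rw [WW_succ, show ω k = a k • v from funext hv, W_smul, map_smul, h1, prod_range_succ_comm,
      mul_smul]

/-- The Frobenius argument. -/
theorem coreP {R F : Type} [CommRing R] [CommRing F] [IsDomain F] (p : ℕ) [Fact p.Prime]
    [CharP R p] (ψ : R →+* F[X]) {c : R} (hc : ψ c ≠ 0) {z : ℕ → R} {r k α : ℕ}
    {ω : ℕ → Fin n → R} (hA : AR (r + 2) R c z) (hS : ∀ j, ∃ t, Sp (z j ^ t) ω k) {G : Fk n R}
    (hd : Deg (r + k) G) (hG : ∀ i < k, W (ω i) G = 0) {e : ℕ → ℕ}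
    (he : ∀ i < k, ∀ j, X ^ e i ∣ ψ (ω i j)) {S : Finset (Fin n)} {γ : F} (hγ : γ ≠ 0)
    (hψ : ψ (G S) = X ^ α * C γ) : ∑ i ∈ range k, e i ≤ α := by
  by_contra hlt
  obtain ⟨E, hE⟩ := division (n := n) r k
  obtain ⟨m, hm⟩ : ∃ m : ℕ, (ψ c ^ E).natDegree < p ^ m :=
    ⟨_, Nat.lt_pow_self (Fact.out : p.Prime).one_lt⟩
  have : ExpChar R p := ExpChar.prime Fact.out
  let φ := iterateFrobenius R p m
  obtain ⟨ζ, hζ⟩ := hE R c z (fun i => φ ∘ ω i) hA (fun j => by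
      obtain ⟨t, ht⟩ := sp_quot hS φ j
      exact ⟨p ^ m * t, by rwa [pow_mul]⟩) (φ ∘ G) (hd.map φ)
    fun i hi => by rw [← W_map, hG i hi]; exact funext fun _ => map_zero φ
  obtain ⟨η', h1⟩ := WW_dvd (a := fun i => (X ^ e i) ^ p ^ m) (ω := fun i => ψ ∘ φ ∘ ω i) (k := k)
    (fun i hi j => by
      change _ ∣ ψ (ω i j ^ p ^ m)
      rw [map_pow]
      exact pow_dvd_pow_of_dvd (he i hi j) _) (ψ ∘ ζ)
  have h2 := congrFun ((WW_map ψ _ k ζ).trans h1) S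
  rw [← hζ, prod_pow, prod_pow_eq_pow_sum] at h2
  change ψ (c ^ E * G S ^ p ^ m) = _ * η' S at h2
  obtain ⟨s, hs⟩ := Nat.exists_eq_add_of_lt (not_le.1 hlt)
  rw [map_mul, map_pow, map_pow, hψ, hs, add_assoc, pow_add, mul_pow, mul_pow, mul_left_comm,
    mul_assoc] at h2
  have h3 := mul_left_cancel₀ (pow_ne_zero _ (pow_ne_zero _ X_ne_zero)) h2
  have h4 : ψ c ^ E * C γ ^ p ^ m ≠ 0 :=
    mul_ne_zero (pow_ne_zero _ hc) (pow_ne_zero _ (C_ne_zero.2 hγ))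
  have h5 := natDegree_le_of_dvd ⟨_, h3⟩ h4
  rw [← C_pow, natDegree_mul_C (pow_ne_zero _ hγ), ← pow_mul, natDegree_X_pow] at h5
  nlinarith [Nat.zero_le (s * p ^ m)]

end Pool.Agent.Lib.MP_41050a_ag.CI
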