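import Pool.Agent.Lib.MP_41050a_ag.CI.Cap

/-! Reduction to positive characteristic. -/

namespace Pool.Agent.Lib.MP_41050a_ag.CI

open Polynomial Filter

noncomputable section

variable {L K : Type} [Field L] [Field K] [Algebra L K]

/-- The scaling of the variable. -/
def Th (K : Type) [Field K] : K[X] →+* K[X][X] := eval₂RingHom (C.comp C) (X * C X)

theorem Th_hom (e : ℕ) (β : K) : Th K (X ^ e * C β) = X ^ e * C (X ^ e * C β) := by
  simp [Th, mul_pow]
  ring

theorem Th_one (y : K[X]) : (Th K y).eval 1 = y :=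
  RingHom.congr_fun (show (evalRingHom 1).comp (Th K) = RingHom.id _ from
    Polynomial.ringHom_ext (fun a => by simp [Th]) (by simp [Th])) y

theorem exists_coact {s : Set K[X]} (hs : ∀ y ∈ s, ∃ e β, y = X ^ e * C β) :
    ∃ θ : Algebra.adjoin ℤ s →+* (Algebra.adjoin ℤ s)[X], (∀ y, (θ y).eval 1 = y) ∧
      ∀ (y : Algebra.adjoin ℤ s) e β, y.val = X ^ e * C β → θ y = X ^ e * C y := by
  let ι : Algebra.adjoin ℤ s →+* K[X] := (Algebra.adjoin ℤ s).val.toRingHom
  have hι : Function.Injective ι := Subtype.val_injective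
  have inj := map_injective ι hι
  have h1 : ∀ (y : Algebra.adjoin ℤ s) e β, y.val = X ^ e * C β →
      (X ^ e * C y).map ι = Th K y := fun y e β h => by
    rw [Polynomial.map_mul, Polynomial.map_pow, map_X, map_C, h, Th_hom, ← h]
    rfl
  have h2 : ∀ y ∈ Algebra.adjoin ℤ s, ∃ q : (Algebra.adjoin ℤ s)[X], q.map ι = Th K y := by
    intro y hy
    induction hy using Algebra.adjoin_induction with
    | mem y hy =>
      obtain ⟨e, β, h⟩ := hs y hy
      exact ⟨_, h1 ⟨y, Algebra.subset_adjoin hy⟩ e β h⟩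
    | algebraMap a => exact ⟨a, by simp⟩
    | add x y _ _ hx hy =>
      obtain ⟨p, hp⟩ := hx
      obtain ⟨q, hq⟩ := hy
      exact ⟨p + q, by rw [Polynomial.map_add, hp, hq, map_add]⟩
    | mul x y _ _ hx hy =>
      obtain ⟨p, hp⟩ := hx
      obtain ⟨q, hq⟩ := hy
      exact ⟨p * q, by rw [Polynomial.map_mul, hp, hq, map_mul]⟩
  choose q hq using fun y : Algebra.adjoin ℤ s => h2 y y.2
  refine ⟨⟨⟨⟨q, inj (by simp [hq])⟩, fun x y => inj (by simp [hq])⟩, inj (by simp [hq]),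
    fun x y => inj (by simp [hq])⟩, fun y => hι ?_, fun y e β h => inj ((hq y).trans (h1 y e β h).symm)⟩
  have := Th_one y.val
  rw [← hq, eval_one_map] at this
  exact this

theorem ev_mem {τ : Type} (g : τ → K[X]) {y : K[X]} (hy : y ∈ Algebra.adjoin L (Set.range g)) :
    ∀ᶠ S : Finset L in atTop,
      y ∈ Algebra.adjoin ℤ (algebraMap L K[X] '' S ∪ Set.range g) := by
  induction hy using Algebra.adjoin_induction with
  | mem y hy => exact Eventually.of_forall fun S => Algebra.subset_adjoin (Or.inr hy)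
  | algebraMap a =>
    filter_upwards [eventually_ge_atTop {a}] with S hS
    exact Algebra.subset_adjoin (Or.inl ⟨a, hS (Finset.mem_singleton_self a), rfl⟩)
  | add x y _ _ hx hy =>
    filter_upwards [hx, hy] with S h h'
    exact add_mem h h'
  | mul x y _ _ hx hy =>
    filter_upwards [hx, hy] with S h h'
    exact mul_mem h h'

theorem ev_mv {σ : Type} (Q : MvPolynomial σ L) : ∀ᶠ S : Finset L in atTop,
    Q ∈ Set.range (MvPolynomial.map (Algebra.adjoin ℤ (S : Set L)).val.toRingHom) := by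
  classical
  filter_upwards [eventually_ge_atTop Q.coeffs] with S hS
  exact MvPolynomial.mem_range_map_iff_coeffs_subset.2 fun a ha =>
    ⟨⟨a, Algebra.subset_adjoin (hS ha)⟩, rfl⟩

theorem ev_monic {σ : Type} {p : (MvPolynomial σ L)[X]} (hp : p.Monic) :
    ∀ᶠ S : Finset L in atTop, ∃ q : (MvPolynomial σ (Algebra.adjoin ℤ (S : Set L)))[X], q.Monic ∧
      q.map (MvPolynomial.map (Algebra.adjoin ℤ (S : Set L)).val.toRingHom) = p := by
  filter_upwards [(eventually_all_finset p.support).2 fun j _ => ev_mv (p.coeff j)] with S hS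
  obtain ⟨q, h1, -, h2⟩ := lifts_and_natDegree_eq_and_monic
    (f := MvPolynomial.map (Algebra.adjoin ℤ (S : Set L)).val.toRingHom)
    ((lifts_iff_coeff_lifts p).2 fun j => by
      by_cases hj : j ∈ p.support
      · exact hS j hj
      · exact ⟨0, by rw [notMem_support_iff.1 hj, map_zero]⟩) hp
  exact ⟨q, h2, h1⟩

theorem int_jac : IsJacobsonRing ℤ := by
  rw [isJacobsonRing_iff_prime_eq]
  intro P hP
  by_cases h : P = ⊥
  · subst h
    refine eq_bot_iff.2 fun x hx => ?_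
    have h0 : x = 0 := by
      rcases Int.isUnit_iff.1 (Ideal.mem_jacobson_bot.1 hx x) with h | h <;> nlinarith
    simp [h0]
  · have : P.IsMaximal := Ring.DimensionLEOne.maximalOfPrime h hP
    exact Ideal.jacobson_eq_self_of_isMaximal

theorem char_pos (κ : Type) [Field κ] [Algebra ℤ κ] [Algebra.FiniteType ℤ κ] :
    ∃ p : ℕ, p.Prime ∧ CharP κ p := by
  have := int_jac
  obtain ⟨p, hp⟩ := CharP.exists κ
  refine ⟨p, (CharP.char_is_prime_or_zero κ p).resolve_right ?_, hp⟩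
  rintro rfl
  have := CharP.charP_to_charZero κ
  have := finite_of_finite_type_of_isJacobsonRing ℤ κ
  exact Int.not_isField ((Algebra.IsIntegral.isField_iff_isField (R := ℤ) (S := κ)
    (algebraMap ℤ κ).injective_int).2 (Field.toIsField κ))

/-- The special fibre. -/
theorem fibre {A B : Type} [CommRing A] [Nontrivial A] [Algebra.FiniteType ℤ A] [CommRing B]
    [IsDomain B] {s : ℕ} (f : MvPolynomial (Fin s) A →+* B) (hinj : Function.Injective f)
    (hfin : f.Finite) (θ : B →+* B[X]) (θ1 : ∀ y, (θ y).eval 1 = y)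
    (θ2 : ∀ a, θ (f (MvPolynomial.C a)) = C (f (MvPolynomial.C a))) {n r k α : ℕ}
    (hs : r + 2 ≤ s) {ω : ℕ → Fin n → B}
    (hS : ∀ j, ∃ t, Sp (f (MvPolynomial.X j) ^ t) ω k) {G : Fk n B} (hd : Deg (r + k) G)
    (hG : ∀ i < k, W (ω i) G = 0) {e : ℕ → ℕ} (he : ∀ i < k, ∀ j, X ^ e i ∣ θ (ω i j))
    {S : Finset (Fin n)} (hα : θ (G S) = X ^ α * C (G S)) {N : MvPolynomial (Fin s) A}
    (hN : G S ∣ f N) {m₀ : Fin s →₀ ℕ} (hu : IsUnit (N.coeff m₀)) :
    ∑ i ∈ Finset.range k, e i ≤ α := by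
  obtain ⟨m, hm⟩ := Ideal.exists_maximal A
  let := Ideal.Quotient.field m
  obtain ⟨p, hp, hκ⟩ := char_pos (A ⧸ m)
  have := Fact.mk hp
  let π : MvPolynomial (Fin s) A →+* MvPolynomial (Fin s) (A ⧸ m) :=
    MvPolynomial.map (Ideal.Quotient.mk m)
  have := RingHom.ker_isPrime π
  obtain ⟨q, hq, hq'⟩ : ∃ q : Ideal B, q.IsPrime ∧ q.comap f = RingHom.ker π := by
    let := f.toAlgebra
    have : Module.Finite (MvPolynomial (Fin s) A) B := hfin
    exact Ideal.exists_ideal_over_prime_of_isIntegral_of_isDomain (S := B) (RingHom.ker π)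
      (((RingHom.injective_iff_ker_eq_bot f).1 hinj).le.trans bot_le)
  have hq1 : ∀ P, f P ∈ q ↔ π P = 0 := fun P => by rw [← Ideal.mem_comap, hq', RingHom.mem_ker]
  let Ψ : B →+* (B ⧸ q)[X] := (mapRingHom (Ideal.Quotient.mk q)).comp θ
  have := RingHom.ker_isPrime Ψ
  have h1 : ∀ y, Ψ y = 0 → y ∈ q := fun y hy => by
    have h2 := congrArg (eval 1) hy
    rw [RingHom.comp_apply, coe_mapRingHom, eval_one_map, θ1, eval_zero] at h2
    exact Ideal.Quotient.eq_zero_iff_mem.1 h2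
  let μ := Ideal.Quotient.mk (RingHom.ker Ψ)
  let ι : A ⧸ m →+* B ⧸ RingHom.ker Ψ :=
    Ideal.Quotient.lift m (μ.comp (f.comp MvPolynomial.C)) fun a ha =>
      Ideal.Quotient.eq_zero_iff_mem.2 (by
        change (θ (f (MvPolynomial.C a))).map _ = 0
        rw [θ2, map_C, Ideal.Quotient.eq_zero_iff_mem.2 ((hq1 _).2 (by
          rw [MvPolynomial.map_C, Ideal.Quotient.eq_zero_iff_mem.2 ha, map_zero])), map_zero])
  let f' : MvPolynomial (Fin s) (A ⧸ m) →+* B ⧸ RingHom.ker Ψ :=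
    MvPolynomial.eval₂Hom ι fun i => μ (f (MvPolynomial.X i))
  have h2 : f'.comp π = μ.comp f :=
    MvPolynomial.ringHom_ext (fun a => by simp [f', π, ι]) fun i => by simp [f', π]
  have h3 : Function.Injective f' := (injective_iff_map_eq_zero _).2 fun P hP => by
    obtain ⟨P, rfl⟩ := MvPolynomial.map_surjective _ Ideal.Quotient.mk_surjective P
    exact (hq1 P).1 (h1 _ (Ideal.Quotient.eq_zero_iff_mem.1
      ((RingHom.congr_fun h2 P).symm.trans hP)))
  have h4 : f'.Finite := RingHom.Finite.of_comp_finite (f := π)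
    (h2 ▸ (RingHom.Finite.of_surjective μ Ideal.Quotient.mk_surjective).comp hfin)
  have : CharP (B ⧸ RingHom.ker Ψ) p := charP_of_injective_ringHom ι.injective p
  obtain ⟨c, hc, hA⟩ := exists_AR f' h3 h4
  refine coreP p (RingHom.kerLift Ψ) ((map_ne_zero_iff _ (RingHom.kerLift_injective Ψ)).2 hc)
    (ω := fun i => μ ∘ ω i) (hA _ hs) (fun j => ?_) (hd.map μ)
    (fun i hi => by rw [← W_map, hG i hi]; exact funext fun _ => map_zero μ) (fun i hi j => ?_)
    (S := S) (γ := Ideal.Quotient.mk q (G S)) (fun h0 => ?_) ?_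
  · split_ifs with h
    · obtain ⟨t, ht⟩ := hS ⟨j, h⟩
      refine ⟨t, ?_⟩
      have := ht.map μ
      rw [map_pow] at this
      simpa [f'] using this
    · exact ⟨1, 0, fun i _ j _ => by simp⟩
  · have := Polynomial.map_dvd (Ideal.Quotient.mk q) (he i hi j)
    rw [Polynomial.map_pow, map_X] at this
    exact this
  · have h5 := congrArg (MvPolynomial.coeff m₀)
      ((hq1 N).1 (Ideal.mem_of_dvd _ hN (Ideal.Quotient.eq_zero_iff_mem.1 h0)))
    rw [MvPolynomial.coeff_map] at h5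
    exact (hu.map (Ideal.Quotient.mk m)).ne_zero h5
  · change (θ (G S)).map _ = _
    rw [hα, Polynomial.map_mul, Polynomial.map_pow, map_X, map_C]

theorem spread {τ : Type} [Finite τ] {g : τ → K[X]} (hg : ∀ a, ∃ e β, g a = X ^ e * C β)
    {s n r k α : ℕ} (hs : r + 2 ≤ s) {z : Fin s → K[X]} (hz : AlgebraicIndependent L z)
    (hz' : ∀ j, z j ∈ Algebra.adjoin L (Set.range g))
    (hint : ∀ a, (MvPolynomial.aeval z : MvPolynomial (Fin s) L →ₐ[L] K[X]).toRingHom.IsIntegralElem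
      (g a)) {ω : ℕ → Fin n → K[X]} (hω : ∀ i j, ω i j ∈ Algebra.adjoin L (Set.range g))
    (hS : ∀ j, ∃ (t : ℕ) (u : ℕ → Fin n → K[X]), (∀ i a, u i a ∈ Algebra.adjoin L (Set.range g)) ∧
      ∀ i < k, ∀ i' < k, u i ⬝ᵥ ω i' = if i = i' then z j ^ t else 0)
    {G : Fk n K[X]} (hGm : ∀ S, G S ∈ Algebra.adjoin L (Set.range g)) (hd : Deg (r + k) G)
    (hG : ∀ i < k, W (ω i) G = 0) {e : ℕ → ℕ} (he : ∀ i < k, ∀ j, ∃ β, ω i j = X ^ e i * C β)
    {S₀ : Finset (Fin n)} {γ : K} (hα : G S₀ = X ^ α * C γ) {N : MvPolynomial (Fin s) L}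
    (hN0 : N ≠ 0) {h : K[X]} (hh : h ∈ Algebra.adjoin L (Set.range g))
    (hN : MvPolynomial.aeval z N = G S₀ * h) : ∑ i ∈ Finset.range k, e i ≤ α := by
  classical
  choose t u hu hu' using hS
  choose P hP hP' using hint
  obtain ⟨m₀, hm₀⟩ := MvPolynomial.ne_zero_iff.1 hN0
  obtain ⟨S, ⟨⟨⟨⟨⟨⟨⟨a1, a2⟩, a3⟩, a4⟩, a5⟩, a6⟩, NA, a7⟩, a8⟩⟩ :=
    ((((((((eventually_all.2 fun j => ev_mem g (hz' j)).and
    ((eventually_all_finset (Finset.range k)).2 fun i _ => eventually_all.2 fun j =>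
      ev_mem g (hω i j))).and (eventually_all.2 fun j =>
    (eventually_all_finset (Finset.range k)).2 fun i _ => eventually_all.2 fun a =>
      ev_mem g (hu j i a))).and (eventually_all.2 fun S => ev_mem g (hGm S))).and
    (ev_mem g hh)).and (eventually_all.2 fun a => ev_monic (hP a))).and (ev_mv N)).and
    (eventually_ge_atTop {(N.coeff m₀)⁻¹})).exists
  let A := Algebra.adjoin ℤ (S : Set L)
  obtain ⟨θ, θ1, θ2⟩ := exists_coact (s := algebraMap L K[X] '' S ∪ Set.range g) (by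
    rintro _ (⟨a, -, rfl⟩ | ⟨a, rfl⟩)
    · exact ⟨0, algebraMap L K a, by simp⟩
    · exact hg a)
  have hfB : Algebra.FiniteType ℤ (Algebra.adjoin ℤ (algebraMap L K[X] '' S ∪ Set.range g)) :=
    Algebra.FiniteType.adjoin_of_finite ((S.finite_toSet.image _).union (Set.finite_range g))
  have hfA : Algebra.FiniteType ℤ A := Algebra.FiniteType.adjoin_of_finite S.finite_toSet
  have hAB : ∀ a : A, algebraMap L K[X] a ∈
      Algebra.adjoin ℤ (algebraMap L K[X] '' S ∪ Set.range g) := fun a => by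
    obtain ⟨a, ha⟩ := a
    induction ha using Algebra.adjoin_induction with
    | mem y hy => exact Algebra.subset_adjoin (Or.inl ⟨y, hy, rfl⟩)
    | algebraMap a => simp
    | add x y _ _ hx hy => exact map_add (algebraMap L K[X]) x y ▸ add_mem hx hy
    | mul x y _ _ hx hy => exact map_mul (algebraMap L K[X]) x y ▸ mul_mem hx hy
  have hind : ∀ p : Algebra.adjoin ℤ (algebraMap L K[X] '' S ∪ Set.range g) → Prop,
      (∀ a : A, p ⟨_, hAB a⟩) → (∀ a h, p ⟨g a, h⟩) → (∀ x y, p x → p y → p (x + y)) →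
      (∀ x y, p x → p y → p (x * y)) → ∀ x, p x := fun p p1 p2 p3 p4 ⟨x, hx⟩ => by
    induction hx using Algebra.adjoin_induction with
    | mem y hy =>
      obtain ⟨a, ha, rfl⟩ | ⟨a, rfl⟩ := hy
      · exact p1 ⟨a, Algebra.subset_adjoin ha⟩
      · exact p2 a _
    | algebraMap a => simpa using p1 a
    | add x y _ _ hx hy => exact p3 _ _ hx hy
    | mul x y _ _ hx hy => exact p4 _ _ hx hy
  generalize Algebra.adjoin ℤ (algebraMap L K[X] '' S ∪ Set.range g) = B at *
  let ι : B →+* K[X] := B.val.toRingHom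
  have hι : Function.Injective ι := Subtype.val_injective
  let ρ : K[X] → B := fun y => if h : y ∈ B then ⟨y, h⟩ else 0
  have hρ : ∀ y ∈ B, ι (ρ y) = y := fun y hy => by simp [ρ, hy, ι]
  let f : MvPolynomial (Fin s) A →+* B := MvPolynomial.eval₂Hom
    (((algebraMap L K[X]).comp A.val.toRingHom).codRestrict B hAB) fun j => ⟨z j, a1 j⟩
  have hf : ι.comp f = (MvPolynomial.aeval z : MvPolynomial (Fin s) L →ₐ[L] K[X]).toRingHom.comp
      (MvPolynomial.map A.val.toRingHom) :=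
    MvPolynomial.ringHom_ext (fun a => by simp [f, ι]) fun i => by simp [f, ι]
  have hC : ∀ a : A, f (MvPolynomial.C a) = ⟨_, hAB a⟩ := fun a => Subtype.ext (by simp [f])
  have hρω : ∀ i < k, ι ∘ ρ ∘ ω i = ω i := fun i hi =>
    funext fun j => hρ _ (a2 i (Finset.mem_range.2 hi) j)
  have hρG : ι ∘ ρ ∘ G = G := funext fun S => hρ _ (a4 S)
  refine fibre f (Function.Injective.of_comp (f := ι) ?_) (RingHom.IsIntegral.to_finite ?_ ?_) θ θ1
    (fun a => ?_) hs (ω := fun i => ρ ∘ ω i) (fun j => ⟨t j, fun i => ρ ∘ u j i,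
      fun i hi i' hi' => hι ?_⟩) (G := ρ ∘ G) (fun S hS => hι ?_) (fun i hi => ?_)
    (fun i hi j => ?_) (S := S₀) (θ2 _ α γ ((hρ _ (a4 S₀)).trans hα)) (N := NA)
    ⟨ρ h, hι ?_⟩ (m₀ := m₀) ?_
  · rw [← RingHom.coe_comp, hf]
    exact Function.Injective.comp (g := MvPolynomial.aeval z) hz
      (MvPolynomial.map_injective A.val.toRingHom Subtype.val_injective)
  · refine hind _ (fun a => hC a ▸ f.isIntegralElem_map) (fun a h => ?_)
      (fun x y => RingHom.IsIntegralElem.add f) fun x y => RingHom.IsIntegralElem.mul f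
    obtain ⟨q, q1, q2⟩ := a6 a
    refine ⟨q, q1, hι ?_⟩
    rw [hom_eval₂, hf, ← eval₂_map, q2, map_zero]
    exact hP' a
  · refine RingHom.FiniteType.of_comp_finiteType (f := Int.castRingHom _) ?_
    rw [RingHom.ext_int (f.comp _) (algebraMap ℤ B)]
    exact RingHom.finiteType_algebraMap.2 hfB
  · rw [θ2 _ 0 (algebraMap L K a) (by simp [hC]), pow_zero, one_mul]
  · rw [RingHom.map_dotProduct, hρω i' hi', show ι ∘ ρ ∘ u j i = u j i from
      funext fun a => hρ _ (a3 j i (Finset.mem_range.2 hi) a), hu' j i hi i' hi', apply_ite ι,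
      map_zero, map_pow]
    simp [f, ι]
  · exact (congrFun hρG S).trans ((hd S hS).trans (map_zero ι).symm)
  · funext S
    have := W_map ι (ρ ∘ ω i) (ρ ∘ G)
    rw [hρω i hi, hρG, hG i hi] at this
    exact hι ((congrFun this S).trans (map_zero ι).symm)
  · obtain ⟨β, hβ⟩ := he i hi j
    exact ⟨_, θ2 _ _ β ((congrFun (hρω i hi) j).trans hβ)⟩
  · rw [map_mul, hρ _ a5, ← RingHom.comp_apply, hf, RingHom.comp_apply, a7]
    exact hN.trans (congrArg (· * h) (congrFun hρG S₀).symm)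
  · have h1 := congrArg (MvPolynomial.coeff m₀) a7
    rw [MvPolynomial.coeff_map] at h1
    refine IsUnit.of_mul_eq_one
      ⟨_, Algebra.subset_adjoin (a8 (Finset.mem_singleton_self _))⟩ (Subtype.ext ?_)
    exact (congrArg (· * (N.coeff m₀)⁻¹) h1).trans (mul_inv_cancel₀ hm₀)

end

end Pool.Agent.Lib.MP_41050a_ag.CI
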